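import Mathlib
import Pool.Agent.H33.TT.Game

/-!
# Transfer of won positions along an embedding
-/

namespace Pool.Agent.H20.TT

open Pool.Agent.H33.TT

variable {V W : Type*}

/-- Data of an embedding of a graph `A` (all of whose non-isolated vertices satisfy `S`) onto the
non-isolated part of a graph `B`. -/
structure Emb (A : V → V → Prop) (B : W → W → Prop) (S : V → Prop) (g : V → W) : Prop where
  left : ∀ v w, A v w → S v
  right : ∀ v w, A v w → S w
  inj : ∀ v w, S v → S w → g v = g w → v = w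
  map : ∀ v w, A v w → B (g v) (g w)
  comap : ∀ v y, S v → B (g v) y → ∃ w, y = g w ∧ A v w

variable {A : V → V → Prop} {B : W → W → Prop} {S : V → Prop} {g : V → W}

/-- All edges in `U` have their ends in `S`. -/
def InS (S : V → Prop) (U : Set (Sym2 V)) : Prop := ∀ v w, s(v, w) ∈ U → S v ∧ S w

lemma InS.insert {U : Set (Sym2 V)} (h : InS S U) {a b : V} (ha : S a) (hb : S b) :
    InS S (insert s(a, b) U) := by
  intro v w hvw
  rcases hvw with hvw | hvw
  · rcases Sym2.eq_iff.1 hvw with ⟨rfl, rfl⟩ | ⟨rfl, rfl⟩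
    · exact ⟨ha, hb⟩
    · exact ⟨hb, ha⟩
  · exact h v w hvw

lemma Emb.mem_iff (hE : Emb A B S g) {U : Set (Sym2 V)} (hU : InS S U) {a b : V} (ha : S a)
    (hb : S b) : s(g a, g b) ∈ Sym2.map g '' U ↔ s(a, b) ∈ U := by
  constructor
  · rintro ⟨e, he, h⟩
    induction e using Sym2.ind with
    | _ v w =>
      obtain ⟨hv, hw⟩ := hU v w he
      rw [Sym2.map_mk] at h
      rcases Sym2.eq_iff.1 h with ⟨h1, h2⟩ | ⟨h1, h2⟩
      · rw [← hE.inj _ _ hv ha h1, ← hE.inj _ _ hw hb h2]
        exact he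
      · rw [← hE.inj _ _ hv hb h1, ← hE.inj _ _ hw ha h2, Sym2.eq_swap]
        exact he
  · intro h
    exact ⟨_, h, by rw [Sym2.map_mk]⟩

lemma image_insert2 (g : V → W) (U : Set (Sym2 V)) (a b : V) :
    insert s(g a, g b) (Sym2.map g '' U) = Sym2.map g '' (insert s(a, b) U) := by
  rw [Set.image_insert_eq, Sym2.map_mk]

/-- Won positions are mapped to won positions. -/
theorem Emb.MW_map (hE : Emb A B S g) {U : Set (Sym2 V)} {a b : V} (h : MW A U a b)
    (hU : InS S U) (ha : S a) (hb : S b) : MW B (Sym2.map g '' U) (g a) (g b) := by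
  induction h with
  | intro a' haa hu hr ih =>
    rename_i U a b
    have ha' := hE.right _ _ haa
    refine MW.intro (g a') (hE.map _ _ haa) ?_ ?_
    · rw [hE.mem_iff hU ha ha']
      exact hu
    · intro y hy hyu
      obtain ⟨b', rfl, hbb⟩ := hE.comap _ _ hb hy
      have hb' := hE.right _ _ hbb
      have hU1 : InS S (insert s(a, a') U) := hU.insert ha ha'
      rw [image_insert2, hE.mem_iff hU1 hb hb'] at hyu
      have := ih b' hbb hyu (hU1.insert hb hb') ha' hb'
      rw [image_insert2, image_insert2]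
      exact this

/-- Positions whose image is won are won. -/
theorem Emb.MW_comap (hE : Emb A B S g) {U : Set (Sym2 V)} {a b : V}
    (h : MW B (Sym2.map g '' U) (g a) (g b)) (hU : InS S U) (ha : S a) (hb : S b) :
    MW A U a b := by
  generalize hU' : Sym2.map g '' U = U' at h
  generalize hx : g a = x at h
  generalize hy : g b = y at h
  induction h generalizing U a b with
  | intro x' hxx hu hr ih =>
    subst hU' hx hy
    obtain ⟨a', rfl, haa⟩ := hE.comap _ _ ha hxx
    have ha' := hE.right _ _ haa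
    rw [hE.mem_iff hU ha ha'] at hu
    refine MW.intro a' haa hu ?_
    intro b' hbb hbu
    have hb' := hE.right _ _ hbb
    have hU1 : InS S (insert s(a, a') U) := hU.insert ha ha'
    refine ih (g b') (hE.map _ _ hbb) ?_ (hU1.insert hb hb') ha' hb' ?_ rfl rfl
    · rw [image_insert2, hE.mem_iff hU1 hb hb']
      exact hbu
    · rw [image_insert2, image_insert2]

theorem Emb.MW_iff (hE : Emb A B S g) {U : Set (Sym2 V)} {a b : V} (hU : InS S U) (ha : S a)
    (hb : S b) : MW B (Sym2.map g '' U) (g a) (g b) ↔ MW A U a b :=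
  ⟨fun h => hE.MW_comap h hU ha hb, fun h => hE.MW_map h hU ha hb⟩

/-- The first player has a winning strategy on the graph with adjacency relation `A`. -/
def Win1 (A : V → V → Prop) : Prop :=
  ∃ u u', A u u' ∧ ∀ v v', A v v' → s(v, v') ≠ s(u, u') → MW A {s(v, v'), s(u, u')} u' v'

theorem Emb.win1 (hE : Emb A B S g) (hs : ∀ x y, B x y → ∃ v w, x = g v ∧ y = g w ∧ A v w) :
    Win1 B ↔ Win1 A := by
  have key : ∀ u u' v v', A u u' → A v v' →
      ((s(g v, g v') ≠ s(g u, g u') → MW B {s(g v, g v'), s(g u, g u')} (g u') (g v')) ↔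
        (s(v, v') ≠ s(u, u') → MW A {s(v, v'), s(u, u')} u' v')) := by
    intro u u' v v' hu hv
    have h0 : InS S (∅ : Set (Sym2 V)) := fun _ _ h => absurd h (Set.notMem_empty _)
    have h1 : InS S ({s(u, u')} : Set (Sym2 V)) := by
      have := h0.insert (hE.left _ _ hu) (hE.right _ _ hu)
      rwa [insert_empty_eq] at this
    have h2 := h1.insert (hE.left _ _ hv) (hE.right _ _ hv)
    have e1 : (s(g v, g v') ≠ s(g u, g u')) ↔ s(v, v') ≠ s(u, u') := by
      have := hE.mem_iff h1 (hE.left _ _ hv) (hE.right _ _ hv)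
      rw [Set.image_singleton, Sym2.map_mk, Set.mem_singleton_iff, Set.mem_singleton_iff] at this
      exact not_congr this
    have e2 := hE.MW_iff h2 (hE.right _ _ hu) (hE.right _ _ hv)
    rw [← image_insert2, Set.image_singleton, Sym2.map_mk] at e2
    rw [e1, e2]
  constructor
  · rintro ⟨x, x', hx, h⟩
    obtain ⟨u, u', rfl, rfl, hu⟩ := hs _ _ hx
    refine ⟨u, u', hu, fun v v' hv => ?_⟩
    exact (key u u' v v' hu hv).1 (h _ _ (hE.map _ _ hv))
  · rintro ⟨u, u', hu, h⟩
    refine ⟨g u, g u', hE.map _ _ hu, fun y y' hy => ?_⟩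
    obtain ⟨v, v', rfl, rfl, hv⟩ := hs _ _ hy
    exact (key u u' v v' hu hv).2 (h _ _ hv)

end Pool.Agent.H20.TT
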