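import Mathlib
import Pool.Agent.H33.TT.Spec
import Pool.Agent.H20.TT.Transfer

/-!
# Numbering of the vertices of the reduction graph
-/

set_option linter.constructorNameAsVariable false

namespace Pool.Agent.H20.TT

open Pool.Agent.H33.TT

/-- Truth values as numbers. -/
def bn (b : Bool) : ℕ := if b then 1 else 0

/-- Tags of the lane vertices. -/
def tln (l s : Bool) : ℕ := 13 + 2 * bn l + bn s

/-- The three digits of a vertex. -/
def tri : V → ℕ × ℕ × ℕ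
  | .z => (0, 0, 0)
  | .x => (1, 0, 0)
  | .y1 => (2, 0, 0)
  | .y2 => (3, 0, 0)
  | .x2 => (4, 0, 0)
  | .w => (5, 0, 0)
  | .m1 => (6, 0, 0)
  | .m2 => (7, 0, 0)
  | .u1 => (8, 0, 0)
  | .u2 => (9, 0, 0)
  | .R => (10, 0, 0)
  | .n1 => (11, 0, 0)
  | .n2 => (12, 0, 0)
  | .ln l i s => (tln l s, i, 0)
  | .I .kap j => (17, j, 0)
  | .I .lam j => (18, j, 0)
  | .I .J j => (19, j, 0)
  | .I .G j => (20, j, 0)
  | .I (.K c r) j => (21 + r, j, c)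

lemma tln_bounds (l s : Bool) : 13 ≤ tln l s ∧ tln l s ≤ 16 := by
  cases l <;> cases s <;> simp [tln, bn]

lemma tln_inj {l s l' s' : Bool} (h : tln l s = tln l' s') : l = l' ∧ s = s' := by
  cases l <;> cases s <;> cases l' <;> cases s' <;> simp [tln, bn] at h <;> simp

theorem tri_inj : Function.Injective tri := by
  intro v w h
  cases v with
  | ln l i s =>
    have hb := tln_bounds l s
    cases w with
    | ln l' i' s' =>
      simp only [tri, Prod.mk.injEq] at h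
      obtain ⟨h1, h2, _⟩ := h
      obtain ⟨rfl, rfl⟩ := tln_inj h1
      rw [h2]
    | I c j =>
      exfalso
      cases c <;> simp only [tri, Prod.mk.injEq] at h <;> omega
    | _ => exfalso; simp only [tri, Prod.mk.injEq] at h; omega
  | I c j =>
    cases w with
    | ln l' i' s' =>
      have hb := tln_bounds l' s'
      exfalso
      cases c <;> simp only [tri, Prod.mk.injEq] at h <;> omega
    | I c' j' =>
      cases c <;> cases c' <;> simp only [tri, Prod.mk.injEq] at h <;> simp <;> omega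
    | _ => exfalso; cases c <;> simp only [tri, Prod.mk.injEq] at h <;> omega
  | _ =>
    cases w with
    | ln l' i' s' =>
      have hb := tln_bounds l' s'
      exfalso
      simp only [tri, Prod.mk.injEq] at h
      omega
    | I c j =>
      exfalso
      cases c <;> simp only [tri, Prod.mk.injEq] at h <;> omega
    | _ => first | rfl | (exfalso; simp only [tri, Prod.mk.injEq] at h; omega)

/-- The data needed to describe the edges. -/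
structure Raw where
  /-- number of clauses -/
  M : ℕ
  /-- length of the lanes -/
  Len : ℕ
  /-- length of the trunks -/
  sg : ℕ
  /-- period -/
  P : ℕ
  /-- length of `lam` -/
  la : ℕ
  /-- length of `kap` -/
  ka : ℕ
  /-- length of `J` -/
  lJ : ℕ
  /-- length of the clause corridors -/
  lK : ℕ
  /-- length of `G` -/
  lG : ℕ
  /-- lanes -/
  lane : ℕ → ℕ → Bool
  /-- stages -/
  st : ℕ → ℕ → ℕ
  /-- sides -/
  sd : ℕ → ℕ → Bool

/-- The data of a graph of the construction. -/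
def praw (p : Par) : Raw where
  M := p.M
  Len := p.Len
  sg := p.sg
  P := p.P
  la := p.la
  ka := p.ka
  lJ := p.lJ
  lK := p.lK
  lG := p.lG
  lane := p.lane
  st := p.st
  sd := p.sd

/-- `T = (t, a, b)` -/
def is3 (T : ℕ × ℕ × ℕ) (t a b : ℕ) : Prop := T.1 = t ∧ (T.2.1 = a ∧ T.2.2 = b)

lemma is3_iff {T : ℕ × ℕ × ℕ} {t a b : ℕ} : is3 T t a b ↔ T = (t, a, b) := by
  rcases T with ⟨x, y, z⟩
  simp [is3]

/-- Edges without parameters. -/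
def ES (T T' : ℕ × ℕ × ℕ) : Prop :=
  (is3 T 0 0 0 ∧ is3 T' 1 0 0) ∨ ((is3 T 1 0 0 ∧ is3 T' 2 0 0) ∨ ((is3 T 1 0 0 ∧ is3 T' 3 0 0) ∨
  ((is3 T 4 0 0 ∧ is3 T' 2 0 0) ∨ ((is3 T 5 0 0 ∧ is3 T' 4 0 0) ∨ ((is3 T 2 0 0 ∧ is3 T' 6 0 0) ∨
  ((is3 T 2 0 0 ∧ is3 T' 8 0 0) ∨ ((is3 T 6 0 0 ∧ is3 T' 8 0 0) ∨ ((is3 T 3 0 0 ∧ is3 T' 7 0 0) ∨
  ((is3 T 3 0 0 ∧ is3 T' 9 0 0) ∨ ((is3 T 7 0 0 ∧ is3 T' 9 0 0) ∨
  ((is3 T 10 0 0 ∧ is3 T' 11 0 0) ∨ (is3 T 11 0 0 ∧ is3 T' 12 0 0))))))))))))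

/-- Edges depending on the lengths only. -/
def EC (q : Raw) (T T' : ℕ × ℕ × ℕ) : Prop :=
  (is3 T 9 0 0 ∧ is3 T' 13 0 0) ∨ ((is3 T 13 q.Len 0 ∧ is3 T' 11 0 0) ∨
  ((is3 T 4 0 0 ∧ is3 T' 17 1 0) ∨ ((is3 T 8 0 0 ∧ is3 T' 18 1 0) ∨
  ((is3 T 15 q.Len 0 ∧ is3 T' 19 1 0) ∨ ((is3 T 15 q.Len 0 ∧ is3 T' 20 1 0) ∨
  ((is3 T 17 (q.ka - 1) 0 ∧ is3 T' 13 0 0) ∨ ((is3 T 18 (q.la - 1) 0 ∧ is3 T' 15 0 0) ∨
  ((is3 T 19 (q.lJ - 1) 0 ∧ is3 T' 12 0 0) ∨ (is3 T 20 (q.lG - 1) 0 ∧ is3 T' 12 0 0)))))))))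

/-- Lane positions inside a gadget. -/
def rinn (q : Raw) (i : ℕ) : Prop := q.sg < i % q.P

/-- Lane edges. -/
def ELs (q : Raw) (l s s' : Bool) (T T' : ℕ × ℕ × ℕ) : Prop :=
  (is3 T (tln l s) T.2.1 0 ∧ is3 T' (tln l s') (T.2.1 + 1) 0) ∧ (T.2.1 < q.Len ∧
    ((s = false ∨ rinn q T.2.1) ∧ ((s' = false ∨ rinn q (T.2.1 + 1)) ∧
      (¬ rinn q T.2.1 ∨ (¬ rinn q (T.2.1 + 1) ∨ s = s')))))

/-- Lane edges. -/
def EL (q : Raw) (T T' : ℕ × ℕ × ℕ) : Prop :=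
  ∃ l s s' : Bool, ELs q l s s' T T'

/-- Edges inside of corridors. -/
def EM1 (t len : ℕ) (T T' : ℕ × ℕ × ℕ) : Prop :=
  (is3 T t T.2.1 0 ∧ is3 T' t (T.2.1 + 1) 0) ∧ (1 ≤ T.2.1 ∧ T.2.1 + 1 < len)

/-- Edges inside of corridors. -/
def EM (q : Raw) (T T' : ℕ × ℕ × ℕ) : Prop :=
  EM1 17 q.ka T T' ∨ (EM1 18 q.la T T' ∨ (EM1 19 q.lJ T T' ∨ (EM1 20 q.lG T T' ∨
    ((is3 T' T.1 (T.2.1 + 1) T.2.2 ∧ (21 ≤ T.1 ∧ T.1 < 25)) ∧
      (T.2.2 < q.M ∧ (1 ≤ T.2.1 ∧ T.2.1 + 1 < q.lK))))))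

/-- First position of a literal. -/
def rai (q : Raw) (c r : ℕ) : ℕ := q.st c r * q.P + q.sg + 1 + 2 * c

/-- Ends of the clause corridors. -/
def EK (q : Raw) (T T' : ℕ × ℕ × ℕ) : Prop :=
  (is3 T 13 q.Len 0 ∧ (is3 T' 21 1 T'.2.2 ∧ T'.2.2 < q.M)) ∨
  ((∃ r, r < 3 ∧ (is3 T (tln (q.lane T'.2.2 r) (q.sd T'.2.2 r)) (rai q T'.2.2 r + 1) 0 ∧
    (is3 T' (21 + (r + 1)) 1 T'.2.2 ∧ T'.2.2 < q.M))) ∨
  ((∃ r, r < 3 ∧ (is3 T' (tln (q.lane T.2.2 r) (q.sd T.2.2 r)) (rai q T.2.2 r) 0 ∧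
    (is3 T (21 + r) (q.lK - 1) T.2.2 ∧ T.2.2 < q.M))) ∨
  (is3 T' 10 0 0 ∧ (is3 T 24 (q.lK - 1) T.2.2 ∧ T.2.2 < q.M))))

/-- Edges. -/
def ET (q : Raw) (T T' : ℕ × ℕ × ℕ) : Prop :=
  ES T T' ∨ (EC q T T' ∨ (EL q T T' ∨ (EM q T T' ∨ EK q T T')))

theorem ES_E {p : Par} {T T' : ℕ × ℕ × ℕ} (h : ES T T') :
    ∃ v w, tri v = T ∧ tri w = T' ∧ p.E v w := by
  unfold ES at h
  simp only [is3_iff] at h
  rcases h with ⟨rfl, rfl⟩ | ⟨rfl, rfl⟩ | ⟨rfl, rfl⟩ | ⟨rfl, rfl⟩ | ⟨rfl, rfl⟩ | ⟨rfl, rfl⟩ |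
    ⟨rfl, rfl⟩ | ⟨rfl, rfl⟩ | ⟨rfl, rfl⟩ | ⟨rfl, rfl⟩ | ⟨rfl, rfl⟩ | ⟨rfl, rfl⟩ | ⟨rfl, rfl⟩
  · exact ⟨.z, .x, rfl, rfl, .zx⟩
  · exact ⟨.x, .y1, rfl, rfl, .xy1⟩
  · exact ⟨.x, .y2, rfl, rfl, .xy2⟩
  · exact ⟨.x2, .y1, rfl, rfl, .x2y1⟩
  · exact ⟨.w, .x2, rfl, rfl, .wx2⟩
  · exact ⟨.y1, .m1, rfl, rfl, .y1m1⟩
  · exact ⟨.y1, .u1, rfl, rfl, .y1u1⟩
  · exact ⟨.m1, .u1, rfl, rfl, .m1u1⟩
  · exact ⟨.y2, .m2, rfl, rfl, .y2m2⟩
  · exact ⟨.y2, .u2, rfl, rfl, .y2u2⟩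
  · exact ⟨.m2, .u2, rfl, rfl, .m2u2⟩
  · exact ⟨.R, .n1, rfl, rfl, .Rn1⟩
  · exact ⟨.n1, .n2, rfl, rfl, .n1n2⟩

theorem EC_E {p : Par} {T T' : ℕ × ℕ × ℕ} (h : EC (praw p) T T') :
    ∃ v w, tri v = T ∧ tri w = T' ∧ p.E v w := by
  unfold EC at h
  simp only [is3_iff] at h
  rcases h with ⟨rfl, rfl⟩ | ⟨rfl, rfl⟩ | ⟨rfl, rfl⟩ | ⟨rfl, rfl⟩ | ⟨rfl, rfl⟩ | ⟨rfl, rfl⟩ |
    ⟨rfl, rfl⟩ | ⟨rfl, rfl⟩ | ⟨rfl, rfl⟩ | ⟨rfl, rfl⟩
  · exact ⟨.u2, .ln false 0 false, rfl, rfl, .u2q⟩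
  · exact ⟨.ln false p.Len false, .n1, rfl, rfl, .Qn1⟩
  · exact ⟨.x2, .I .kap 1, rfl, rfl, .kap0⟩
  · exact ⟨.u1, .I .lam 1, rfl, rfl, .lam0⟩
  · exact ⟨.ln true p.Len false, .I .J 1, rfl, rfl, .J0⟩
  · exact ⟨.ln true p.Len false, .I .G 1, rfl, rfl, .G0⟩
  · exact ⟨.I .kap (p.ka - 1), .ln false 0 false, rfl, rfl, .kape⟩
  · exact ⟨.I .lam (p.la - 1), .ln true 0 false, rfl, rfl, .lame⟩
  · exact ⟨.I .J (p.lJ - 1), .n2, rfl, rfl, .Je⟩
  · exact ⟨.I .G (p.lG - 1), .n2, rfl, rfl, .Ge⟩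

theorem EL_E {p : Par} {T T' : ℕ × ℕ × ℕ} (h : EL (praw p) T T') :
    ∃ v w, tri v = T ∧ tri w = T' ∧ p.E v w := by
  obtain ⟨l, s, s', ⟨h1, h2⟩, h3, h4, h5, h6⟩ := h
  rw [is3_iff] at h1 h2
  refine ⟨.ln l T.2.1 s, .ln l (T.2.1 + 1) s', h1.symm, h2.symm, .lane l _ s s' h3 h4 h5 ?_⟩
  intro h7 h8
  rcases h6 with h6 | h6 | h6
  · exact absurd h7 h6
  · exact absurd h8 h6
  · exact h6

theorem EM_E {p : Par} {T T' : ℕ × ℕ × ℕ} (h : EM (praw p) T T') :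
    ∃ v w, tri v = T ∧ tri w = T' ∧ p.E v w := by
  rcases h with ⟨⟨h1, h2⟩, h3, h4⟩ | ⟨⟨h1, h2⟩, h3, h4⟩ | ⟨⟨h1, h2⟩, h3, h4⟩ | ⟨⟨h1, h2⟩, h3, h4⟩ |
    ⟨⟨h1, h2, h3⟩, h4, h5, h6⟩
  · rw [is3_iff] at h1 h2
    exact ⟨.I .kap T.2.1, .I .kap (T.2.1 + 1), h1.symm, h2.symm, .mid .kap trivial _ h3 h4⟩
  · rw [is3_iff] at h1 h2
    exact ⟨.I .lam T.2.1, .I .lam (T.2.1 + 1), h1.symm, h2.symm, .mid .lam trivial _ h3 h4⟩
  · rw [is3_iff] at h1 h2
    exact ⟨.I .J T.2.1, .I .J (T.2.1 + 1), h1.symm, h2.symm, .mid .J trivial _ h3 h4⟩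
  · rw [is3_iff] at h1 h2
    exact ⟨.I .G T.2.1, .I .G (T.2.1 + 1), h1.symm, h2.symm, .mid .G trivial _ h3 h4⟩
  · rw [is3_iff] at h1
    refine ⟨.I (.K T.2.2 (T.1 - 21)) T.2.1, .I (.K T.2.2 (T.1 - 21)) (T.2.1 + 1), ?_, ?_,
      .mid (.K T.2.2 (T.1 - 21)) ⟨h4, by omega⟩ _ h5 h6⟩
    · simp only [tri]
      rw [show 21 + (T.1 - 21) = T.1 by omega]
    · simp only [tri]
      rw [h1, show 21 + (T.1 - 21) = T.1 by omega]

theorem EK_E {p : Par} {T T' : ℕ × ℕ × ℕ} (h : EK (praw p) T T') :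
    ∃ v w, tri v = T ∧ tri w = T' ∧ p.E v w := by
  rcases h with ⟨h1, h2, h3⟩ | ⟨r, hr, h1, h2, h3⟩ | ⟨r, hr, h1, h2, h3⟩ | ⟨h1, h2, h3⟩
  · rw [is3_iff] at h1 h2
    exact ⟨.ln false p.Len false, .I (.K T'.2.2 0) 1, h1.symm, h2.symm, .KQ _ h3⟩
  · rw [is3_iff] at h1 h2
    exact ⟨.ln (p.lane T'.2.2 r) (p.ai T'.2.2 r + 1) (p.sd T'.2.2 r), .I (.K T'.2.2 (r + 1)) 1,
      h1.symm, h2.symm, .Ks _ _ h3 hr⟩
  · rw [is3_iff] at h1 h2
    exact ⟨.I (.K T.2.2 r) (p.lK - 1), .ln (p.lane T.2.2 r) (p.ai T.2.2 r) (p.sd T.2.2 r),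
      h2.symm, h1.symm, .Ke _ _ h3 hr⟩
  · rw [is3_iff] at h1 h2
    exact ⟨.I (.K T.2.2 3) (p.lK - 1), .R, h2.symm, h1.symm, .KR _ h3⟩

theorem E_ET {p : Par} {v w : V} (h : p.E v w) : ET (praw p) (tri v) (tri w) := by
  cases h with
  | zx => left; simp [ES, is3, tri]
  | xy1 => left; simp [ES, is3, tri]
  | xy2 => left; simp [ES, is3, tri]
  | x2y1 => left; simp [ES, is3, tri]
  | wx2 => left; simp [ES, is3, tri]
  | y1m1 => left; simp [ES, is3, tri]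
  | y1u1 => left; simp [ES, is3, tri]
  | m1u1 => left; simp [ES, is3, tri]
  | y2m2 => left; simp [ES, is3, tri]
  | y2u2 => left; simp [ES, is3, tri]
  | m2u2 => left; simp [ES, is3, tri]
  | Rn1 => left; simp [ES, is3, tri]
  | n1n2 => left; simp [ES, is3, tri]
  | u2q => right; left; simp [EC, is3, tri, tln, bn]
  | Qn1 => right; left; simp [EC, is3, tri, tln, bn, praw]
  | kap0 => right; left; simp [EC, is3, tri]
  | lam0 => right; left; simp [EC, is3, tri]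
  | J0 => right; left; simp [EC, is3, tri, tln, bn, praw]
  | G0 => right; left; simp [EC, is3, tri, tln, bn, praw]
  | kape => right; left; simp [EC, is3, tri, tln, bn, praw]
  | lame => right; left; simp [EC, is3, tri, tln, bn, praw]
  | Je => right; left; simp [EC, is3, tri, praw]
  | Ge => right; left; simp [EC, is3, tri, praw]
  | lane l i s s' hi h1 h2 h3 =>
    right; right; left
    refine ⟨l, s, s', ⟨⟨rfl, rfl, rfl⟩, ⟨rfl, rfl, rfl⟩⟩, hi, h1, h2, ?_⟩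
    by_cases h4 : p.inn i
    · by_cases h5 : p.inn (i + 1)
      · exact Or.inr (Or.inr (h3 h4 h5))
      · exact Or.inr (Or.inl h5)
    · exact Or.inl h4
  | mid c hc j h1 h2 =>
    right; right; right; left
    cases c with
    | kap => exact Or.inl ⟨⟨⟨rfl, rfl, rfl⟩, ⟨rfl, rfl, rfl⟩⟩, h1, h2⟩
    | lam => exact Or.inr (Or.inl ⟨⟨⟨rfl, rfl, rfl⟩, ⟨rfl, rfl, rfl⟩⟩, h1, h2⟩)
    | J => exact Or.inr (Or.inr (Or.inl ⟨⟨⟨rfl, rfl, rfl⟩, ⟨rfl, rfl, rfl⟩⟩, h1, h2⟩))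
    | G => exact Or.inr (Or.inr (Or.inr (Or.inl ⟨⟨⟨rfl, rfl, rfl⟩, ⟨rfl, rfl, rfl⟩⟩, h1, h2⟩)))
    | K c r =>
      refine Or.inr (Or.inr (Or.inr (Or.inr ⟨⟨⟨rfl, rfl, rfl⟩, ?_, ?_⟩, hc.1, h1, h2⟩)))
      · show 21 ≤ 21 + r
        omega
      · show 21 + r < 25
        have := hc.2
        omega
  | KQ c hc => 
    right; right; right; right
    exact Or.inl ⟨⟨rfl, rfl, rfl⟩, ⟨rfl, rfl, rfl⟩, hc⟩
  | Ks c r hc hr =>
    right; right; right; right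
    exact Or.inr (Or.inl ⟨r, hr, ⟨rfl, rfl, rfl⟩, ⟨rfl, rfl, rfl⟩, hc⟩)
  | Ke c r hc hr =>
    right; right; right; right
    exact Or.inr (Or.inr (Or.inl ⟨r, hr, ⟨rfl, rfl, rfl⟩, ⟨rfl, rfl, rfl⟩, hc⟩))
  | KR c hc =>
    right; right; right; right
    exact Or.inr (Or.inr (Or.inr ⟨⟨rfl, rfl, rfl⟩, ⟨rfl, rfl, rfl⟩, hc⟩))

theorem ET_iff {p : Par} {T T' : ℕ × ℕ × ℕ} :
    ET (praw p) T T' ↔ ∃ v w, tri v = T ∧ tri w = T' ∧ p.E v w := by
  constructor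
  · rintro (h | h | h | h | h)
    · exact ES_E h
    · exact EC_E h
    · exact EL_E h
    · exact EM_E h
    · exact EK_E h
  · rintro ⟨v, w, rfl, rfl, h⟩
    exact E_ET h

/-! ### Numbers -/

/-- Base for the positions. -/
def rB (q : Raw) : ℕ := q.lG + 1

/-- The number of vertices. -/
def rNN (q : Raw) : ℕ := 25 * (rB q * (q.M + 1))

/-- The number with given digits. -/
def num (q : Raw) (T : ℕ × ℕ × ℕ) : ℕ := T.1 + 25 * (T.2.1 + rB q * T.2.2)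

/-- The digits of a number. -/
def dig (q : Raw) (u : ℕ) : ℕ × ℕ × ℕ := (u % 25, u / 25 % rB q, u / 25 / rB q)

/-- Bounds for the digits. -/
def ok3 (q : Raw) (T : ℕ × ℕ × ℕ) : Prop := T.1 < 25 ∧ T.2.1 < rB q ∧ T.2.2 ≤ q.M

lemma num_dig (q : Raw) (u : ℕ) : num q (dig q u) = u := by
  unfold num dig
  simp only
  have h1 := Nat.div_add_mod u 25
  have h2 := Nat.div_add_mod (u / 25) (rB q)
  omega

lemma dig_num {q : Raw} {T : ℕ × ℕ × ℕ} (h : ok3 q T) : dig q (num q T) = T := by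
  rcases T with ⟨t, a, b⟩
  obtain ⟨h1, h2, h3⟩ := h
  simp only at h1 h2 h3
  unfold dig num
  simp only
  have hB : 0 < rB q := by unfold rB; omega
  have e1 : (t + 25 * (a + rB q * b)) % 25 = t := by
    rw [Nat.add_mul_mod_self_left, Nat.mod_eq_of_lt h1]
  have e2 : (t + 25 * (a + rB q * b)) / 25 = a + rB q * b := by
    rw [Nat.add_mul_div_left _ _ (by norm_num), Nat.div_eq_of_lt h1, zero_add]
  rw [e1, e2, Nat.add_mul_mod_self_left, Nat.mod_eq_of_lt h2, Nat.add_mul_div_left _ _ hB,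
    Nat.div_eq_of_lt h2, zero_add]

lemma num_lt {q : Raw} {T : ℕ × ℕ × ℕ} (h : ok3 q T) : num q T < rNN q := by
  rcases T with ⟨t, a, b⟩
  obtain ⟨h1, h2, h3⟩ := h
  simp only at h1 h2 h3
  unfold num rNN
  simp only
  have h4 : rB q * b ≤ rB q * q.M := Nat.mul_le_mul_left _ h3
  have h5 : rB q * (q.M + 1) = rB q * q.M + rB q := by ring
  omega

/-- The ends of edges have bounded digits. -/
theorem ok3_E {p : Par} {v w : V} (h : p.E v w) :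
    ok3 (praw p) (tri v) ∧ ok3 (praw p) (tri w) := by
  have b1 := p.hG
  have b2 : ∀ c r, c < p.M → r < 3 → p.ai c r + 1 < p.Len := by
    intro c r hc hr
    have := p.ai_lt hc hr
    have := p.hLen
    omega
  have key : ∀ t a b, t < 25 → a ≤ p.lG → b ≤ p.M → ok3 (praw p) (t, a, b) := by
    intro t a b ht ha hb
    exact ⟨ht, Nat.lt_succ_of_le ha, hb⟩
  have ht : ∀ l s, tln l s < 25 := fun l s => by have := (tln_bounds l s).2; omega
  cases h with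
  | lane l i s s' hi h1 h2 h3 =>
    exact ⟨key _ _ _ (ht _ _) (by omega) (Nat.zero_le _),
      key _ _ _ (ht _ _) (by omega) (Nat.zero_le _)⟩
  | mid c hc j h1 h2 =>
    cases c with
    | kap =>
      have h3 : j + 1 < p.ka := h2
      exact ⟨key _ _ _ (by norm_num) (by omega) (Nat.zero_le _),
        key _ _ _ (by norm_num) (by omega) (Nat.zero_le _)⟩
    | lam =>
      have h3 : j + 1 < p.la := h2
      exact ⟨key _ _ _ (by norm_num) (by omega) (Nat.zero_le _),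
        key _ _ _ (by norm_num) (by omega) (Nat.zero_le _)⟩
    | J =>
      have h3 : j + 1 < p.lJ := h2
      exact ⟨key _ _ _ (by norm_num) (by omega) (Nat.zero_le _),
        key _ _ _ (by norm_num) (by omega) (Nat.zero_le _)⟩
    | G =>
      have h3 : j + 1 < p.lG := h2
      exact ⟨key _ _ _ (by norm_num) (by omega) (Nat.zero_le _),
        key _ _ _ (by norm_num) (by omega) (Nat.zero_le _)⟩
    | K c r =>
      have h3 : j + 1 < p.lK := h2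
      have h4 := hc.1
      have h5 := hc.2
      exact ⟨key _ _ _ (by omega) (by omega) (by omega),
        key _ _ _ (by omega) (by omega) (by omega)⟩
  | KQ c hc =>
    exact ⟨key _ _ _ (ht _ _) (by omega) (Nat.zero_le _),
      key _ _ _ (by omega) (by omega) (by omega)⟩
  | Ks c r hc hr =>
    have := b2 c r hc hr
    exact ⟨key _ _ _ (ht _ _) (by omega) (Nat.zero_le _),
      key _ _ _ (by omega) (by omega) (by omega)⟩
  | Ke c r hc hr =>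
    have := b2 c r hc hr
    exact ⟨key _ _ _ (by omega) (by omega) (by omega),
      key _ _ _ (ht _ _) (by omega) (Nat.zero_le _)⟩
  | KR c hc =>
    exact ⟨key _ _ _ (by omega) (by omega) (by omega),
      key _ _ _ (by omega) (by omega) (Nat.zero_le _)⟩
  | u2q =>
    exact ⟨key _ _ _ (by norm_num) (by omega) (Nat.zero_le _),
      key _ _ _ (ht _ _) (by omega) (Nat.zero_le _)⟩
  | Qn1 =>
    exact ⟨key _ _ _ (ht _ _) (by omega) (Nat.zero_le _),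
      key _ _ _ (by norm_num) (by omega) (Nat.zero_le _)⟩
  | J0 =>
    exact ⟨key _ _ _ (ht _ _) (by omega) (Nat.zero_le _),
      key _ _ _ (by norm_num) (by omega) (Nat.zero_le _)⟩
  | G0 =>
    exact ⟨key _ _ _ (ht _ _) (by omega) (Nat.zero_le _),
      key _ _ _ (by norm_num) (by omega) (Nat.zero_le _)⟩
  | kape =>
    exact ⟨key _ _ _ (by norm_num) (by omega) (Nat.zero_le _),
      key _ _ _ (ht _ _) (by omega) (Nat.zero_le _)⟩
  | lame =>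
    exact ⟨key _ _ _ (by norm_num) (by omega) (Nat.zero_le _),
      key _ _ _ (ht _ _) (by omega) (Nat.zero_le _)⟩
  | _ =>
    exact ⟨key _ _ _ (by norm_num) (by omega) (Nat.zero_le _),
      key _ _ _ (by norm_num) (by omega) (Nat.zero_le _)⟩

/-- Adjacency of numbers. -/
def adjN (q : Raw) (u v : ℕ) : Prop := ET q (dig q u) (dig q v) ∨ ET q (dig q v) (dig q u)

/-- The number of a vertex. -/
def code (q : Raw) (v : V) : ℕ := num q (tri v)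

theorem adjN_iff {p : Par} {a b : ℕ} :
    adjN (praw p) a b ↔ ∃ v w, p.Adj v w ∧ a = code (praw p) v ∧ b = code (praw p) w := by
  constructor
  · rintro (h | h)
    · obtain ⟨v, w, h1, h2, h3⟩ := ET_iff.1 h
      exact ⟨v, w, Or.inl h3, by rw [code, h1, num_dig], by rw [code, h2, num_dig]⟩
    · obtain ⟨v, w, h1, h2, h3⟩ := ET_iff.1 h
      exact ⟨w, v, Or.inr h3, by rw [code, h2, num_dig], by rw [code, h1, num_dig]⟩
  · rintro ⟨v, w, h | h, rfl, rfl⟩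
    · have := ok3_E h
      left
      rw [code, code, dig_num this.1, dig_num this.2]
      exact E_ET h
    · have := ok3_E h
      right
      rw [code, code, dig_num this.1, dig_num this.2]
      exact E_ET h

lemma code_inj {p : Par} {v w : V} (hv : ok3 (praw p) (tri v)) (hw : ok3 (praw p) (tri w))
    (h : code (praw p) v = code (praw p) w) : v = w := by
  apply tri_inj
  rw [← dig_num hv, ← dig_num hw]
  unfold code at h
  rw [h]

lemma E_irrefl {p : Par} {v : V} : ¬ p.E v v := by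
  intro h
  cases h

lemma adj_irrefl {p : Par} {v : V} : ¬ p.Adj v v := by
  rintro (h | h) <;> exact E_irrefl h

/-- The reduction graph. -/
def redG (p : Par) : SimpleGraph (Fin (rNN (praw p))) where
  Adj a b := adjN (praw p) a b
  symm := ⟨fun _ _ h => Or.symm h⟩
  loopless := ⟨fun a h => by
    obtain ⟨v, w, h1, h2, h3⟩ := adjN_iff.1 h
    have h4 : v = w := by
      rcases h1 with h1 | h1
      · exact code_inj (ok3_E h1).1 (ok3_E h1).2 (h2.symm.trans h3)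
      · exact code_inj (ok3_E h1).2 (ok3_E h1).1 (h2.symm.trans h3)
    subst h4
    exact adj_irrefl h1⟩

lemma rNN_pos (q : Raw) : 0 < rNN q := by
  unfold rNN rB
  positivity

/-- The vertex of the reduction graph. -/
def vtx (p : Par) (v : V) : Fin (rNN (praw p)) :=
  ⟨code (praw p) v % rNN (praw p), Nat.mod_lt _ (rNN_pos _)⟩

lemma vtx_val {p : Par} {v : V} (hv : ok3 (praw p) (tri v)) :
    (vtx p v).val = code (praw p) v := Nat.mod_eq_of_lt (num_lt hv)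

lemma ok3_adj {p : Par} {v w : V} (h : p.Adj v w) :
    ok3 (praw p) (tri v) ∧ ok3 (praw p) (tri w) := by
  rcases h with h | h
  · exact ok3_E h
  · exact (ok3_E h).symm

theorem emb (p : Par) : Emb p.Adj (redG p).Adj (fun v => ok3 (praw p) (tri v)) (vtx p) where
  left v w h := (ok3_adj h).1
  right v w h := (ok3_adj h).2
  inj v w hv hw h := by
    apply code_inj hv hw
    rw [← vtx_val hv, ← vtx_val hw, h]
  map v w h := by
    show adjN (praw p) (vtx p v).val (vtx p w).val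
    rw [vtx_val (ok3_adj h).1, vtx_val (ok3_adj h).2]
    exact adjN_iff.2 ⟨v, w, h, rfl, rfl⟩
  comap v y hv h := by
    obtain ⟨v', w', h1, h2, h3⟩ := adjN_iff.1 h
    have h4 : v' = v := code_inj (ok3_adj h1).1 hv (by rw [← h2, vtx_val hv])
    subst h4
    exact ⟨w', Fin.ext (by rw [vtx_val (ok3_adj h1).2]; exact h3), h1⟩

/-- The first player wins on the reduction graph if and only if it wins on the graph of the
construction. -/
theorem win1_redG (p : Par) : Win1 (redG p).Adj ↔ Win1 p.Adj := by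
  refine (emb p).win1 ?_
  intro a b h
  obtain ⟨v, w, h1, h2, h3⟩ := adjN_iff.1 h
  exact ⟨v, w, Fin.ext (by rw [vtx_val (ok3_adj h1).1]; exact h2),
    Fin.ext (by rw [vtx_val (ok3_adj h1).2]; exact h3), h1⟩

/-- The winner, in terms of the specification. -/
theorem win1_iff (p : Par) (hT : p.truth → p.WinsT) (hF : ¬ p.truth → p.WinsF) :
    Win1 p.Adj ↔ p.truth := by
  constructor
  · rintro ⟨u, u', hu, h⟩
    by_contra hn
    obtain ⟨v, v', hv, hne, hw⟩ := hF hn u u' hu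
    exact (h v v' hv hne).not_both hw
  · intro ht
    exact ⟨.z, .x, Or.inl .zx, fun v v' hv hne => hT ht v v' hv hne⟩

end Pool.Agent.H20.TT
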