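import Mathlib
import Pool.Agent.H7.Comp.Model

/-!
# Definitions: Trail Trap, quantified Boolean formulas, coding

The model of computation (`Tr`, `Prog`, `Run`: while-programs over binary trees with unit cost) is
the one of `Pool.Agent.H7.Comp.Model`.
-/

namespace Pool.Agent.H20.TT

open Pool.Agent.H7.Comp

/-! ### Trail Trap -/

/-- `Wins G U a b`: a position of Trail Trap on the graph `G` in which the edges in `U` have been
traversed (by either player), the token of the player who is to move is on `a` and the token of the
other player is on `b`; the player who is to move has a winning strategy: it can move its token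
from `a` to a neighbour `a'` along an edge that has not been traversed, such that after every legal
reply `b → b'` of the other player it is again in a winning position. In particular it wins if the
other player has no legal reply. -/
inductive Wins {V : Type*} (G : SimpleGraph V) : Set (Sym2 V) → V → V → Prop
  | move {U : Set (Sym2 V)} {a b : V} (a' : V) (h : G.Adj a a') (hu : s(a, a') ∉ U)
      (hr : ∀ b', G.Adj b b' → s(b, b') ∉ insert s(a, a') U →
        Wins G (insert s(b, b') (insert s(a, a') U)) a' b') : Wins G U a b

/-- `G` is P1-win: P1 can choose a vertex `u` and move to a neighbour `u'` such that, whatever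
vertex `v` P2 chooses and along whatever edge different from the edge `u u'` P2 moves to `v'`,
P1, who is to move now, has a winning strategy. -/
def P1Wins {V : Type*} (G : SimpleGraph V) : Prop :=
  ∃ u u', G.Adj u u' ∧ ∀ v v', G.Adj v v' → s(v, v') ≠ s(u, u') →
    Wins G {s(v, v'), s(u, u')} u' v'

/-! ### Quantified Boolean formulas -/

/-- The assignment `a` makes the literal `l` true: the literal `2 v + 1` is the variable `v`, the
literal `2 v` is its negation. -/
def litTrue (a : ℕ → Bool) (l : ℕ) : Prop := a (l / 2) = decide (l % 2 = 1)

/-- The assignment `a` makes the clause (a triple of literals) true. -/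
def clTrue (a : ℕ → Bool) (C : ℕ × ℕ × ℕ) : Prop :=
  litTrue a C.1 ∨ litTrue a C.2.1 ∨ litTrue a C.2.2

/-- Truth of the alternating quantified formula with matrix `L` (a conjunction of clauses) when the
variables `< 2 i` are assigned according to `a` and `k` pairs of variables are left: for some value
of the variable `2 i` and all values of the variable `2 i + 1` and so on. -/
def QTrue (L : List (ℕ × ℕ × ℕ)) : ℕ → ℕ → (ℕ → Bool) → Prop
  | 0, _, a => ∀ C ∈ L, clTrue a C
  | k + 1, i, a => ∃ b, ∀ c,
      QTrue L k (i + 1) (Function.update (Function.update a (2 * i) b) (2 * i + 1) c)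

/-- Truth of the closed formula `∃ v₀ ∀ v₁ ∃ v₂ ∀ v₃ … ∃ v₂ₙ₋₂ ∀ v₂ₙ₋₁ ⋀ L`. -/
def QBF (n : ℕ) (L : List (ℕ × ℕ × ℕ)) : Prop := QTrue L n 0 (fun _ => false)

/-- All literals of the formula belong to the variables `v₀, …, v₂ₙ₋₁`. -/
def Wf (n : ℕ) (L : List (ℕ × ℕ × ℕ)) : Prop :=
  ∀ C ∈ L, C.1 < 4 * n ∧ C.2.1 < 4 * n ∧ C.2.2 < 4 * n

/-! ### Coding by trees -/

/-- The tree coding a natural number in unary. -/
def natTree : ℕ → Tr
  | 0 => .nil
  | n + 1 => .node .nil (natTree n)

/-- The tree coding a list of trees. -/
def listTree : List Tr → Tr
  | [] => .nil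
  | a :: l => .node a (listTree l)

/-- The tree coding a formula: the number of pairs of variables and the list of clauses, all
numbers in unary. -/
def formTree (n : ℕ) (L : List (ℕ × ℕ × ℕ)) : Tr :=
  .node (natTree n) (listTree (L.map fun C =>
    .node (natTree C.1) (.node (natTree C.2.1) (natTree C.2.2))))

open Classical in
/-- The tree coding a graph on `Fin n`: the number `n` and the adjacency matrix. -/
noncomputable def graphTree {n : ℕ} (G : SimpleGraph (Fin n)) : Tr :=
  .node (natTree n) (listTree (List.ofFn fun u : Fin n =>
    listTree (List.ofFn fun v : Fin n => if G.Adj u v then .node .nil .nil else .nil)))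

end Pool.Agent.H20.TT
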