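import Mathlib
import Pool.Agent.H33.TT.Spec
import Pool.Agent.H20.TT.Defs

/-!
# Quantified Boolean formulas and the normal form used by the construction
-/

namespace Pool.Agent.H20.TT

open Pool.Agent.H33.TT

/-! ### The construction -/

/-- The literal of the original formula in the clause `c` of the normal form. -/
def olit (L : List (ℕ × ℕ × ℕ)) (c : ℕ) : ℕ :=
  if c % 3 = 0 then (L.getD (c / 3) (0, 0, 0)).1
  else if c % 3 = 1 then (L.getD (c / 3) (0, 0, 0)).2.1
  else (L.getD (c / 3) (0, 0, 0)).2.2

/-- lanes of the literals -/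
def laneN (L : List (ℕ × ℕ × ℕ)) (c r : ℕ) : Bool :=
  if r = 0 then true else if r = 1 then decide (¬ c % 3 = 0)
  else decide (olit L c / 2 % 2 = 0)

/-- stages of the literals -/
def stN (n : ℕ) (L : List (ℕ × ℕ × ℕ)) (c r : ℕ) : ℕ :=
  if r = 0 then n + 2 * (c / 3)
  else if r = 1 then (if c % 3 = 0 then n + 2 * (c / 3) else n + 2 * (c / 3) + 1)
  else olit L c / 4

/-- signs of the literals -/
def sdN (L : List (ℕ × ℕ × ℕ)) (c r : ℕ) : Bool :=
  if r = 0 then decide (¬ c % 3 = 0) else if r = 1 then decide (¬ c % 3 = 1)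
  else decide (olit L c % 2 = 1)

/-! Lengths, as functions of the number `N` of stages and the number `M` of clauses -/

/-- length of the trunks -/
def sgF (M : ℕ) : ℕ := 2 * M + 9
/-- period -/
def PF (M : ℕ) : ℕ := 4 * M + 10
/-- length of the lanes -/
def LenF (N M : ℕ) : ℕ := N * PF M + sgF M
/-- length of `lam` -/
def laF (N M : ℕ) : ℕ :=
  (2 * LenF N M + 10) * (2 * LenF N M + 10) + 2 * LenF N M + 100
/-- length of `kap` -/
def kaF (N M : ℕ) : ℕ := laF N M + 2 * M + 7
/-- length of `J` -/
def lJF (N M : ℕ) : ℕ := 2 * (laF N M + kaF N M + LenF N M + 100)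
/-- length of the clause corridors -/
def lKF (N M : ℕ) : ℕ := 2 * (lJF N M + laF N M + kaF N M + LenF N M + 100) + 1
/-- a bound for the number of edges outside of `G` -/
def EOr (N M : ℕ) : ℕ :=
  20 + 4 * (LenF N M + 1) + laF N M + kaF N M + lJF N M + 4 * M * lKF N M
/-- its square -/
def EOF' (N M : ℕ) : ℕ := EOr N M * EOr N M
/-- length of `G` -/
def lGF (N M : ℕ) : ℕ :=
  10 * (EOF' N M + lKF N M + lJF N M + laF N M + kaF N M + LenF N M + 100)

lemma getD_mem {α : Type*} (L : List α) (d : α) {j : ℕ} (h : j < L.length) : L.getD j d ∈ L := by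
  rw [List.getD_eq_getElem?_getD, List.getElem?_eq_getElem h]
  exact List.getElem_mem h

lemma olit_lt {n : ℕ} {L : List (ℕ × ℕ × ℕ)} (h : Wf n L) {c : ℕ} (hc : c < 3 * L.length) :
    olit L c < 4 * n := by
  have := h _ (getD_mem L (0, 0, 0) (show c / 3 < L.length by omega))
  unfold olit
  split_ifs
  · exact this.1
  · exact this.2.1
  · exact this.2.2

lemma stN_lt {n : ℕ} {L : List (ℕ × ℕ × ℕ)} (h : Wf n L) {c r : ℕ} (hc : c < 3 * L.length)
    (_ : r < 3) : stN n L c r < n + 2 * L.length := by
  have := olit_lt h hc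
  unfold stN
  split_ifs <;> omega

/-- The parameters of the reduction graph belonging to a formula. -/
def mkPar (n : ℕ) (L : List (ℕ × ℕ × ℕ)) (h : Wf n L) : Par where
  N := n + 2 * L.length
  M := 3 * L.length
  lane := laneN L
  st := stN n L
  sd := sdN L
  sg := sgF (3 * L.length)
  P := PF (3 * L.length)
  Len := LenF (n + 2 * L.length) (3 * L.length)
  la := laF (n + 2 * L.length) (3 * L.length)
  ka := kaF (n + 2 * L.length) (3 * L.length)
  lJ := lJF (n + 2 * L.length) (3 * L.length)
  lK := lKF (n + 2 * L.length) (3 * L.length)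
  lG := lGF (n + 2 * L.length) (3 * L.length)
  EO := EOF' (n + 2 * L.length) (3 * L.length)
  hst := fun _ _ hc hr => stN_lt h hc hr
  hsg := rfl
  hP := rfl
  hLen := rfl
  hla := by unfold laF; rw [pow_two]
  hla2 := by
    unfold laF
    have : (2 * LenF (n + 2 * L.length) (3 * L.length) + 10) *
      (2 * LenF (n + 2 * L.length) (3 * L.length) + 10) % 2 = 0 := by
      rw [Nat.mul_mod, show (2 * LenF (n + 2 * L.length) (3 * L.length) + 10) % 2 = 0 by omega]
    omega
  hka := rfl
  hJ := le_rfl
  hJ2 := by unfold lJF; omega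
  hK := by unfold lKF; omega
  hK2 := by unfold lKF; omega
  hEO := by unfold EOF' EOr; rw [pow_two]
  hG := le_rfl
  hG2 := by unfold lGF; omega

variable {n : ℕ} {L : List (ℕ × ℕ × ℕ)} {h : Wf n L}

lemma mkPar_lit0 (c : ℕ) : (mkPar n L h).lit c 0 = (true, n + 2 * (c / 3), decide (¬ c % 3 = 0)) :=
  rfl

lemma mkPar_lit1 (c : ℕ) : (mkPar n L h).lit c 1 = (decide (¬ c % 3 = 0),
    (if c % 3 = 0 then n + 2 * (c / 3) else n + 2 * (c / 3) + 1), decide (¬ c % 3 = 1)) :=
  rfl

lemma mkPar_lit2 (c : ℕ) : (mkPar n L h).lit c 2 = (decide (olit L c / 2 % 2 = 0),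
    olit L c / 4, decide (olit L c % 2 = 1)) := rfl

theorem mkPar_typed : (mkPar n L h).Typed := by
  have hM : (mkPar n L h).M = 3 * L.length := rfl
  have h01 : ∀ c c', (mkPar n L h).lit c 0 ≠ (mkPar n L h).lit c' 1 := by
    intro c c' he
    rw [mkPar_lit0, mkPar_lit1, Prod.mk.injEq, Prod.mk.injEq] at he
    obtain ⟨h1, h2, _⟩ := he
    have h1' : ¬ c' % 3 = 0 := by simpa using h1.symm
    rw [if_neg h1'] at h2
    omega
  have h02 : ∀ c c', c' < (mkPar n L h).M → (mkPar n L h).lit c 0 ≠ (mkPar n L h).lit c' 2 := by
    intro c c' hc' he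
    rw [mkPar_lit0, mkPar_lit2, Prod.mk.injEq, Prod.mk.injEq] at he
    obtain ⟨_, h2, _⟩ := he
    have := olit_lt h (hM ▸ hc')
    omega
  have h12 : ∀ c c', c' < (mkPar n L h).M → (mkPar n L h).lit c 1 ≠ (mkPar n L h).lit c' 2 := by
    intro c c' hc' he
    rw [mkPar_lit1, mkPar_lit2, Prod.mk.injEq, Prod.mk.injEq] at he
    obtain ⟨_, h2, _⟩ := he
    have := olit_lt h (hM ▸ hc')
    split_ifs at h2 <;> omega
  constructor
  · intro c c' r r' hc hc' hr hr' hrr
    have hr3 : r = 0 ∨ r = 1 ∨ r = 2 := by omega
    have hr3' : r' = 0 ∨ r' = 1 ∨ r' = 2 := by omega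
    rcases hr3 with rfl | rfl | rfl <;> rcases hr3' with rfl | rfl | rfl
    · exact absurd rfl hrr
    · exact h01 c c'
    · exact h02 c c' hc'
    · exact (h01 c' c).symm
    · exact absurd rfl hrr
    · exact h12 c c' hc'
    · exact (h02 c' c hc).symm
    · exact (h12 c' c hc).symm
    · exact absurd rfl hrr
  · intro c c' hc hc' hcc he
    rw [mkPar_lit1, mkPar_lit1, Prod.mk.injEq, Prod.mk.injEq] at he
    obtain ⟨h1, h2, h3⟩ := he
    have h1' : (¬ c % 3 = 0) ↔ ¬ c' % 3 = 0 := by
      rw [← decide_eq_decide]; exact h1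
    have h3' : (¬ c % 3 = 1) ↔ ¬ c' % 3 = 1 := by
      rw [← decide_eq_decide]; exact h3
    split_ifs at h2 <;> omega

/-! ### Truth -/

/-- The matrix depends on the values at the stages `< N` only. -/
lemma mat_congr (p : Par) {xs ys xs' ys' : ℕ → Bool} (hx : ∀ i, i < p.N → xs i = xs' i)
    (hy : ∀ i, i < p.N → ys i = ys' i) (hm : p.mat xs ys) : p.mat xs' ys' := by
  intro c hc
  obtain ⟨r, hr, hv⟩ := hm c hc
  refine ⟨r, hr, ?_⟩
  have := p.hst c r hc hr
  rw [← hv]
  split_ifs
  · exact (hx _ this).symm
  · exact (hy _ this).symm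

/-- If the first player has fixed good values then the formula is true. -/
lemma QT_of (p : Par) (xs' : ℕ → Bool) : ∀ (k s : ℕ) (xs ys : ℕ → Bool), k + s = p.N →
    (∀ i, i < s → xs i = xs' i) →
    (∀ ys', (∀ i, i < s → ys' i = ys i) → p.mat xs' ys') → p.QT k s xs ys := by
  intro k
  induction k with
  | zero =>
    intro s xs ys hs hx hm
    have hs' : s = p.N := by omega
    exact mat_congr p (fun i hi => (hx i (by omega)).symm) (fun i hi => rfl)
      (hm ys (fun _ _ => rfl))
  | succ k ih =>
    intro s xs ys hs hx hm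
    refine ⟨xs' s, fun b => ih (s + 1) _ _ (by omega) ?_ ?_⟩
    · intro i hi
      by_cases h : i = s
      · subst h; rw [Function.update_self]
      · rw [Function.update_of_ne h]; exact hx i (by omega)
    · intro ys' hys
      refine hm ys' (fun i hi => ?_)
      rw [hys i (by omega), Function.update_of_ne (by omega)]

/-- If the formula is true then the second player can choose the value `false` all the time. -/
lemma of_QT (p : Par) : ∀ (k s : ℕ) (xs ys : ℕ → Bool), p.QT k s xs ys →
    ∃ xs' ys', (∀ i, i < s → xs' i = xs i) ∧ (∀ i, i < s → ys' i = ys i) ∧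
      (∀ i, s ≤ i → i < s + k → ys' i = false) ∧ p.mat xs' ys' := by
  intro k
  induction k with
  | zero =>
    intro s xs ys hm
    exact ⟨xs, ys, fun _ _ => rfl, fun _ _ => rfl, fun i hi hi' => by omega, hm⟩
  | succ k ih =>
    intro s xs ys ⟨a, ha⟩
    obtain ⟨xs', ys', h1, h2, h3, h4⟩ := ih (s + 1) _ _ (ha false)
    refine ⟨xs', ys', ?_, ?_, ?_, h4⟩
    · intro i hi
      rw [h1 i (by omega), Function.update_of_ne (by omega)]
    · intro i hi
      rw [h2 i (by omega), Function.update_of_ne (by omega)]
    · intro i hi hi'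
      by_cases h : i = s
      · subst h
        rw [h2 i (by omega), Function.update_self]
      · exact h3 i (by omega) (by omega)

/-- The assignment of the original variables given by the values at the stages. -/
def merge (xs ys : ℕ → Bool) (v : ℕ) : Bool := if v % 2 = 0 then xs (v / 2) else ys (v / 2)

lemma lit2_iff (xs ys : ℕ → Bool) (c : ℕ) :
    (if (mkPar n L h).lane c 2 then xs else ys) ((mkPar n L h).st c 2) = (mkPar n L h).sd c 2 ↔
      litTrue (merge xs ys) (olit L c) := by
  have e1 : (mkPar n L h).lane c 2 = decide (olit L c / 2 % 2 = 0) := rfl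
  have e2 : (mkPar n L h).st c 2 = olit L c / 4 := rfl
  have e3 : (mkPar n L h).sd c 2 = decide (olit L c % 2 = 1) := rfl
  rw [e1, e2, e3]
  unfold litTrue merge
  rw [show olit L c / 4 = olit L c / 2 / 2 by omega]
  by_cases hv : olit L c / 2 % 2 = 0
  · rw [if_pos hv, decide_eq_true hv, if_pos rfl]
  · rw [if_neg hv, decide_eq_false hv, if_neg (by simp)]

/-- After the original variables are assigned, the rest of the formula is true if and only if all
original clauses are true. -/
lemma QT_tail (xs ys : ℕ → Bool) :
    (mkPar n L h).QT (2 * L.length) n xs ys ↔ ∀ C ∈ L, clTrue (merge xs ys) C := by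
  have hN : (mkPar n L h).N = n + 2 * L.length := rfl
  have hM : (mkPar n L h).M = 3 * L.length := rfl
  have hlit : ∀ (a a' : ℕ → Bool) l, l < 4 * n → (∀ v, v < 2 * n → a v = a' v) →
      litTrue a l → litTrue a' l := by
    intro a a' l hl ha hv
    unfold litTrue at hv ⊢
    rw [← ha _ (by omega)]
    exact hv
  constructor
  · intro hq C hC
    obtain ⟨xs', ys', h1, h2, h3, h4⟩ := of_QT _ _ _ _ _ hq
    obtain ⟨j, hj, rfl⟩ := List.mem_iff_getElem.1 hC
    have hag : ∀ v, v < 2 * n → merge xs' ys' v = merge xs ys v := by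
      intro v hv
      unfold merge
      split_ifs
      · exact h1 _ (by omega)
      · exact h2 _ (by omega)
    have hget : L.getD j (0, 0, 0) = L[j] := by
      rw [List.getD_eq_getElem?_getD, List.getElem?_eq_getElem hj]; rfl
    -- the clause number `3 j + k`
    have key : ∀ k, k < 3 → (xs' (n + 2 * j) = decide (¬ k = 0)) ∨
        (k ≠ 0 ∧ xs' (n + 2 * j + 1) = decide (¬ k = 1)) ∨
        litTrue (merge xs ys) (olit L (3 * j + k)) := by
      intro k hk
      have e1 : (3 * j + k) / 3 = j := by omega
      have e2 : (3 * j + k) % 3 = k := by omega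
      obtain ⟨r, hr, hv⟩ := h4 (3 * j + k) (by rw [hM]; omega)
      have hr3 : r = 0 ∨ r = 1 ∨ r = 2 := by omega
      rcases hr3 with rfl | rfl | rfl
      · left
        have e3 : (mkPar n L h).lane (3 * j + k) 0 = true := rfl
        have e4 : (mkPar n L h).st (3 * j + k) 0 = n + 2 * ((3 * j + k) / 3) := rfl
        have e5 : (mkPar n L h).sd (3 * j + k) 0 = decide (¬ (3 * j + k) % 3 = 0) := rfl
        rw [e3, e4, e5, e1, e2, if_pos rfl] at hv
        exact hv
      · right; left
        have e3 : (mkPar n L h).lane (3 * j + k) 1 = decide (¬ (3 * j + k) % 3 = 0) := rfl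
        have e4 : (mkPar n L h).st (3 * j + k) 1 = if (3 * j + k) % 3 = 0 then
          n + 2 * ((3 * j + k) / 3) else n + 2 * ((3 * j + k) / 3) + 1 := rfl
        have e5 : (mkPar n L h).sd (3 * j + k) 1 = decide (¬ (3 * j + k) % 3 = 1) := rfl
        rw [e3, e4, e5, e1, e2] at hv
        by_cases hk0 : k = 0
        · exfalso
          subst hk0
          have h5 := h3 (n + 2 * j) (by omega) (by omega)
          simp [h5] at hv
        · refine ⟨hk0, ?_⟩
          rw [if_neg hk0] at hv
          simpa [hk0] using hv
      · right; right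
        rw [lit2_iff] at hv
        exact hlit _ _ _ (olit_lt h (by omega)) hag hv
    have o0 : olit L (3 * j + 0) = L[j].1 := by
      unfold olit
      rw [if_pos (by omega), show (3 * j + 0) / 3 = j by omega, hget]
    have o1 : olit L (3 * j + 1) = L[j].2.1 := by
      unfold olit
      rw [if_neg (by omega), if_pos (by omega), show (3 * j + 1) / 3 = j by omega, hget]
    have o2 : olit L (3 * j + 2) = L[j].2.2 := by
      unfold olit
      rw [if_neg (by omega), if_neg (by omega), show (3 * j + 2) / 3 = j by omega, hget]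
    have k0 := key 0 (by omega)
    have k1 := key 1 (by omega)
    have k2 := key 2 (by omega)
    rw [o0] at k0
    rw [o1] at k1
    rw [o2] at k2
    unfold clTrue
    rcases hu : xs' (n + 2 * j) with _ | _ <;> rcases hv : xs' (n + 2 * j + 1) with _ | _ <;>
      simp [hu, hv] at k0 k1 k2 <;> tauto
  · intro hC
    classical
    -- the values of the new variables
    let xs' : ℕ → Bool := fun i => if i < n then xs i
      else if (i - n) % 2 = 0 then decide (litTrue (merge xs ys) (L.getD ((i - n) / 2) (0, 0, 0)).1)
      else decide (litTrue (merge xs ys) (L.getD ((i - n) / 2) (0, 0, 0)).2.1)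
    refine QT_of _ xs' _ _ _ _ (by rw [hN]; omega) ?_ ?_
    · intro i hi
      simp only [xs']
      rw [if_pos hi]
    · intro ys' hys c hc
      rw [hM] at hc
      have hj : c / 3 < L.length := by omega
      have hx0 : xs' (n + 2 * (c / 3)) =
          decide (litTrue (merge xs ys) (L.getD (c / 3) (0, 0, 0)).1) := by
        simp only [xs']
        rw [if_neg (by omega), if_pos (by omega),
          show (n + 2 * (c / 3) - n) / 2 = c / 3 by omega]
      have hx1 : xs' (n + 2 * (c / 3) + 1) =
          decide (litTrue (merge xs ys) (L.getD (c / 3) (0, 0, 0)).2.1) := by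
        simp only [xs']
        rw [if_neg (by omega), if_neg (by omega),
          show (n + 2 * (c / 3) + 1 - n) / 2 = c / 3 by omega]
      have hag : ∀ v, v < 2 * n → merge xs ys v = merge xs' ys' v := by
        intro v hv
        unfold merge
        split_ifs
        · simp only [xs']
          rw [if_pos (by omega)]
        · exact (hys _ (by omega)).symm
      have hcl := hC _ (getD_mem L (0, 0, 0) hj)
      have hol := olit_lt h hc
      have hk : c % 3 = 0 ∨ c % 3 = 1 ∨ c % 3 = 2 := by omega
      have case0 : xs' (n + 2 * (c / 3)) = decide (¬ c % 3 = 0) →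
          ∃ r, r < 3 ∧ (if (mkPar n L h).lane c r then xs' else ys') ((mkPar n L h).st c r) =
            (mkPar n L h).sd c r := fun hv => ⟨0, by omega, hv⟩
      have case1 : ¬ c % 3 = 0 → xs' (n + 2 * (c / 3) + 1) = decide (¬ c % 3 = 1) →
          ∃ r, r < 3 ∧ (if (mkPar n L h).lane c r then xs' else ys') ((mkPar n L h).st c r) =
            (mkPar n L h).sd c r := by
        intro h0 hv
        refine ⟨1, by omega, ?_⟩
        have e3 : (mkPar n L h).lane c 1 = decide (¬ c % 3 = 0) := rfl
        have e4 : (mkPar n L h).st c 1 = if c % 3 = 0 then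
          n + 2 * (c / 3) else n + 2 * (c / 3) + 1 := rfl
        have e5 : (mkPar n L h).sd c 1 = decide (¬ c % 3 = 1) := rfl
        rw [e3, e4, e5, if_neg h0, decide_eq_true h0, if_pos rfl]
        exact hv
      have case2 : litTrue (merge xs ys) (olit L c) →
          ∃ r, r < 3 ∧ (if (mkPar n L h).lane c r then xs' else ys') ((mkPar n L h).st c r) =
            (mkPar n L h).sd c r := fun hv =>
        ⟨2, by omega, (lit2_iff xs' ys' c).2 (hlit _ _ _ hol hag hv)⟩
      rcases hk with hk | hk | hk
      · -- first clause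
        by_cases hl : litTrue (merge xs ys) (L.getD (c / 3) (0, 0, 0)).1
        · refine case2 ?_
          unfold olit
          rw [if_pos hk]
          exact hl
        · refine case0 ?_
          rw [hx0, decide_eq_false hl]
          simp [hk]
      · by_cases hl : litTrue (merge xs ys) (L.getD (c / 3) (0, 0, 0)).1
        · refine case0 ?_
          rw [hx0, decide_eq_true hl]
          simp [hk]
        · by_cases hl2 : litTrue (merge xs ys) (L.getD (c / 3) (0, 0, 0)).2.1
          · refine case2 ?_
            unfold olit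
            rw [if_neg (by omega), if_pos hk]
            exact hl2
          · refine case1 (by omega) ?_
            rw [hx1, decide_eq_false hl2]
            simp [hk]
      · by_cases hl : litTrue (merge xs ys) (L.getD (c / 3) (0, 0, 0)).1
        · refine case0 ?_
          rw [hx0, decide_eq_true hl]
          simp [hk]
        · by_cases hl2 : litTrue (merge xs ys) (L.getD (c / 3) (0, 0, 0)).2.1
          · refine case1 (by omega) ?_
            rw [hx1, decide_eq_true hl2]
            simp [hk]
          · refine case2 ?_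
            unfold olit
            rw [if_neg (by omega), if_neg (by omega)]
            unfold clTrue at hcl
            tauto

/-- The construction preserves truth, after some variables have been assigned. -/
lemma QT_iff : ∀ (k i : ℕ) (xs ys a : ℕ → Bool), k + i = n →
    (∀ v, v < 2 * i → a v = merge xs ys v) →
    ((mkPar n L h).QT (k + 2 * L.length) i xs ys ↔ QTrue L k i a) := by
  intro k
  induction k with
  | zero =>
    intro i xs ys a hi ha
    have : i = n := by omega
    subst this
    rw [zero_add, QT_tail]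
    have hlit : ∀ l, l < 4 * i → (litTrue (merge xs ys) l ↔ litTrue a l) := by
      intro l hl
      unfold litTrue
      rw [ha _ (by omega)]
    show (∀ C ∈ L, clTrue (merge xs ys) C) ↔ ∀ C ∈ L, clTrue a C
    refine forall_congr' fun C => forall_congr' fun hC => ?_
    obtain ⟨h1, h2, h3⟩ := h C hC
    unfold clTrue
    rw [hlit _ h1, hlit _ h2, hlit _ h3]
  | succ k ih =>
    intro i xs ys a hi ha
    rw [show k + 1 + 2 * L.length = (k + 2 * L.length) + 1 by omega]
    show (∃ b, ∀ c, (mkPar n L h).QT (k + 2 * L.length) (i + 1) (Function.update xs i b)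
      (Function.update ys i c)) ↔ ∃ b, ∀ c, QTrue L k (i + 1)
        (Function.update (Function.update a (2 * i) b) (2 * i + 1) c)
    refine exists_congr fun b => forall_congr' fun c => ?_
    refine ih (i + 1) _ _ _ (by omega) ?_
    intro v hv
    unfold merge
    rcases Nat.lt_or_ge v (2 * i) with h1 | h1
    · rw [Function.update_of_ne (by omega), Function.update_of_ne (by omega),
        Function.update_of_ne (by omega), Function.update_of_ne (by omega)]
      exact ha v h1
    · rcases (show v = 2 * i ∨ v = 2 * i + 1 by omega) with rfl | rfl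
      · rw [Function.update_of_ne (by omega), Function.update_self, if_pos (by omega),
          show 2 * i / 2 = i by omega, Function.update_self]
      · rw [Function.update_self, if_neg (by omega),
          show (2 * i + 1) / 2 = i by omega, Function.update_self]

/-- **The construction preserves truth.** -/
theorem mkPar_truth : (mkPar n L h).truth ↔ QBF n L :=
  QT_iff n 0 _ _ _ (by omega) (fun v hv => by omega)

end Pool.Agent.H20.TT
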