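import Mathlib
import Pool.Agent.H20.TT.Form
import Pool.Agent.H20.TT.Code
import Pool.Agent.H40.CR.PTime

/-!
# The reduction is computable in polynomial time
-/

namespace Pool.Agent.H20.TT

open Pool.Agent.H7.Comp Pool.Agent.H33.TT

variable {α β : Type} [Enc α] [Enc β]

/-! ### The length of a list -/

lemma sz_length_le (l : List β) : l.length ≤ sz l := by
  induction l with
  | nil => exact Nat.zero_le _
  | cons a l ih => rw [List.length_cons, sz_cons]; omega

lemma PT.length' : PT (fun l : List β => l.length) := by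
  -- the loop works on pairs (rest of the list, number of elements removed)
  let body : Prog := .pair (.seq .hd .tl) (.pair .nil .tl)
  have hloop : ∀ (l : List β) (k : ℕ), ∃ t, t ≤ 10 * l.length + 2 ∧
      Run (.loop .hd body) (.node (enc l) (encNat k)) (.node .nil (encNat (l.length + k))) t := by
    intro l
    induction l with
    | nil =>
      intro k
      rw [List.length_nil, zero_add]
      exact ⟨1 + 1, by omega, Run.loop_stop (Run.hd_node _ _)⟩
    | cons a l ih =>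
      intro k
      obtain ⟨t, ht, hr⟩ := ih (k + 1)
      obtain ⟨s, hs, hb⟩ : ∃ s, s ≤ 7 ∧ Run body (.node (.node (enc a) (enc l)) (encNat k))
          (.node (enc l) (.node .nil (encNat k))) s := by
        refine ⟨_, ?_, Run.pair (Run.seq (Run.hd_node _ _) (Run.tl_node _ _))
          (Run.pair (Run.nil _) (Run.tl_node _ _))⟩
        norm_num
      have h1 := Run.loop_step (Run.hd_node (.node (enc a) (enc l)) (encNat k)) hb hr
      rw [List.length_cons, show l.length + 1 + k = l.length + (k + 1) by omega]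
      exact ⟨_, by omega, h1⟩
  refine ⟨.seq (.pair .id .nil) (.seq (.loop .hd body) .tl), fun l => 10 * sz l + 10,
    ((PB.const 10).mul PB.self).add (PB.const 10), ?_, fun l => ?_⟩
  · refine PB.mono (((PB.const 2).mul PB.self).add (PB.const 1)) (fun l => ?_)
    rw [sz_nat]
    have := sz_length_le l
    show 2 * l.length + 1 ≤ 2 * sz l + 1
    omega
  · obtain ⟨t, ht, hr⟩ := hloop l 0
    have h1 := Run.seq (Run.pair (Run.id (enc l)) (Run.nil _)) (Run.seq hr (Run.tl_node _ _))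
    have := sz_length_le l
    rw [Nat.add_zero] at h1
    exact ⟨_, by show _ ≤ 10 * sz l + 10; omega, h1⟩

lemma PT.length {f : α → List β} (hf : PT f) : PT (fun x => (f x).length) := PT.length'.comp hf

lemma PTp.exBool {P : α → Bool → Prop} (h : ∀ b, PTp (fun x => P x b)) :
    PTp (fun x => ∃ b, P x b) :=
  ((h true).or (h false)).congr (fun x => by rw [Bool.exists_bool, or_comm])

/-! ### The numerical functions -/

section Num

variable {N M : α → ℕ}

lemma pt_sgF (hM : PT M) : PT (fun x => sgF (M x)) :=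
  ((PT.const 2).mul hM).add (PT.const 9)

lemma pt_PF (hM : PT M) : PT (fun x => PF (M x)) :=
  ((PT.const 4).mul hM).add (PT.const 10)

lemma pt_LenF (hN : PT N) (hM : PT M) : PT (fun x => LenF (N x) (M x)) :=
  (hN.mul (pt_PF hM)).add (pt_sgF hM)

lemma pt_laF (hN : PT N) (hM : PT M) : PT (fun x => laF (N x) (M x)) := by
  have h := pt_LenF hN hM
  have h2 : PT (fun x => 2 * LenF (N x) (M x) + 10) := ((PT.const 2).mul h).add (PT.const 10)
  exact ((h2.mul h2).add ((PT.const 2).mul h)).add (PT.const 100)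

lemma pt_kaF (hN : PT N) (hM : PT M) : PT (fun x => kaF (N x) (M x)) :=
  ((pt_laF hN hM).add ((PT.const 2).mul hM)).add (PT.const 7)

lemma pt_lJF (hN : PT N) (hM : PT M) : PT (fun x => lJF (N x) (M x)) :=
  (PT.const 2).mul ((((pt_laF hN hM).add (pt_kaF hN hM)).add (pt_LenF hN hM)).add (PT.const 100))

lemma pt_lKF (hN : PT N) (hM : PT M) : PT (fun x => lKF (N x) (M x)) :=
  ((PT.const 2).mul (((((pt_lJF hN hM).add (pt_laF hN hM)).add (pt_kaF hN hM)).add
    (pt_LenF hN hM)).add (PT.const 100))).add (PT.const 1)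

lemma pt_EOr (hN : PT N) (hM : PT M) : PT (fun x => EOr (N x) (M x)) :=
  (((((PT.const 20).add ((PT.const 4).mul ((pt_LenF hN hM).add (PT.const 1)))).add
    (pt_laF hN hM)).add (pt_kaF hN hM)).add (pt_lJF hN hM)).add
    (((PT.const 4).mul hM).mul (pt_lKF hN hM))

lemma pt_lGF (hN : PT N) (hM : PT M) : PT (fun x => lGF (N x) (M x)) :=
  (PT.const 10).mul (((((((((pt_EOr hN hM).mul (pt_EOr hN hM)).add (pt_lKF hN hM)).add
    (pt_lJF hN hM)).add (pt_laF hN hM)).add (pt_kaF hN hM)).add (pt_LenF hN hM)).add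
    (PT.const 100)))

end Num

/-! ### The literals -/

section Lit

variable {n c r : α → ℕ} {L : α → List (ℕ × ℕ × ℕ)}

lemma ptp_eqc {f : α → ℕ} (hf : PT f) (c : ℕ) : PTp (fun x => f x = c) :=
  PTp.eq hf (PT.const c)

lemma pt_olit (hL : PT L) (hc : PT c) : PT (fun x => olit (L x) (c x)) := by
  have hg : PT (fun x => (L x).getD (c x / 3) (0, 0, 0)) :=
    PT.getD hL (hc.div (PT.const 3)) (PT.const (0, 0, 0))
  unfold olit
  exact PT.ite (ptp_eqc (hc.mod (PT.const 3)) 0) (PT.fst.comp hg)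
    (PT.ite (ptp_eqc (hc.mod (PT.const 3)) 1) (PT.fst.comp (PT.snd.comp hg))
      (PT.snd.comp (PT.snd.comp hg)))

lemma pt_laneN (hL : PT L) (hc : PT c) (hr : PT r) : PT (fun x => laneN (L x) (c x) (r x)) := by
  unfold laneN
  exact PT.ite (ptp_eqc hr 0) (PT.const true) (PT.ite (ptp_eqc hr 1)
    (PTp.toPT (ptp_eqc (hc.mod (PT.const 3)) 0).not)
    (PTp.toPT (ptp_eqc (((pt_olit hL hc).div (PT.const 2)).mod (PT.const 2)) 0)))

lemma pt_stN (hn : PT n) (hL : PT L) (hc : PT c) (hr : PT r) :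
    PT (fun x => stN (n x) (L x) (c x) (r x)) := by
  have h1 : PT (fun x => n x + 2 * (c x / 3)) := hn.add ((PT.const 2).mul (hc.div (PT.const 3)))
  unfold stN
  exact PT.ite (ptp_eqc hr 0) h1 (PT.ite (ptp_eqc hr 1)
    (PT.ite (ptp_eqc (hc.mod (PT.const 3)) 0) h1 (h1.add (PT.const 1)))
    ((pt_olit hL hc).div (PT.const 4)))

lemma pt_sdN (hL : PT L) (hc : PT c) (hr : PT r) : PT (fun x => sdN (L x) (c x) (r x)) := by
  unfold sdN
  exact PT.ite (ptp_eqc hr 0) (PTp.toPT (ptp_eqc (hc.mod (PT.const 3)) 0).not)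
    (PT.ite (ptp_eqc hr 1) (PTp.toPT (ptp_eqc (hc.mod (PT.const 3)) 1).not)
    (PTp.toPT (ptp_eqc ((pt_olit hL hc).mod (PT.const 2)) 1)))

lemma pt_bn {f : α → Bool} (hf : PT f) : PT (fun x => bn (f x)) := by
  unfold bn
  exact PT.ite (PTp.ofBool hf) (PT.const 1) (PT.const 0)

lemma pt_tln {f g : α → Bool} (hf : PT f) (hg : PT g) : PT (fun x => tln (f x) (g x)) := by
  unfold tln
  exact ((PT.const 13).add ((PT.const 2).mul (pt_bn hf))).add (pt_bn hg)

end Lit

/-! ### The edges -/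

/-- The data of the graph belonging to a formula. -/
def rawOf (n : ℕ) (L : List (ℕ × ℕ × ℕ)) : Raw where
  M := 3 * L.length
  Len := LenF (n + 2 * L.length) (3 * L.length)
  sg := sgF (3 * L.length)
  P := PF (3 * L.length)
  la := laF (n + 2 * L.length) (3 * L.length)
  ka := kaF (n + 2 * L.length) (3 * L.length)
  lJ := lJF (n + 2 * L.length) (3 * L.length)
  lK := lKF (n + 2 * L.length) (3 * L.length)
  lG := lGF (n + 2 * L.length) (3 * L.length)
  lane := laneN L
  st := stN n L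
  sd := sdN L

lemma praw_mkPar {n : ℕ} {L : List (ℕ × ℕ × ℕ)} (h : Wf n L) :
    praw (mkPar n L h) = rawOf n L := rfl

/-- All components of the data are computable in polynomial time. -/
structure PTraw (q : α → Raw) : Prop where
  M : PT (fun x => (q x).M)
  Len : PT (fun x => (q x).Len)
  sg : PT (fun x => (q x).sg)
  P : PT (fun x => (q x).P)
  la : PT (fun x => (q x).la)
  ka : PT (fun x => (q x).ka)
  lJ : PT (fun x => (q x).lJ)
  lK : PT (fun x => (q x).lK)
  lG : PT (fun x => (q x).lG)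
  lane : PT (fun y : α × (ℕ × ℕ) => (q y.1).lane y.2.1 y.2.2)
  st : PT (fun y : α × (ℕ × ℕ) => (q y.1).st y.2.1 y.2.2)
  sd : PT (fun y : α × (ℕ × ℕ) => (q y.1).sd y.2.1 y.2.2)

lemma ptraw_rawOf {n : α → ℕ} {L : α → List (ℕ × ℕ × ℕ)} (hn : PT n) (hL : PT L) :
    PTraw (fun x => rawOf (n x) (L x)) := by
  have hN : PT (fun x => n x + 2 * (L x).length) := hn.add ((PT.const 2).mul (PT.length hL))
  have hM : PT (fun x => 3 * (L x).length) := (PT.const 3).mul (PT.length hL)
  have hc : PT (fun y : α × (ℕ × ℕ) => y.2.1) := PT.fst.comp PT.snd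
  have hr : PT (fun y : α × (ℕ × ℕ) => y.2.2) := PT.snd.comp PT.snd
  have hn' : PT (fun y : α × (ℕ × ℕ) => n y.1) := hn.comp PT.fst
  have hL' : PT (fun y : α × (ℕ × ℕ) => L y.1) := hL.comp PT.fst
  exact
    { M := hM
      Len := pt_LenF hN hM
      sg := pt_sgF hM
      P := pt_PF hM
      la := pt_laF hN hM
      ka := pt_kaF hN hM
      lJ := pt_lJF hN hM
      lK := pt_lKF hN hM
      lG := pt_lGF hN hM
      lane := pt_laneN hL' hc hr
      st := pt_stN hn' hL' hc hr
      sd := pt_sdN hL' hc hr }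

lemma PTraw.comp {q : α → Raw} (h : PTraw q) {f : β → α} (hf : PT f) :
    PTraw (fun y => q (f y)) where
  M := h.M.comp hf
  Len := h.Len.comp hf
  sg := h.sg.comp hf
  P := h.P.comp hf
  la := h.la.comp hf
  ka := h.ka.comp hf
  lJ := h.lJ.comp hf
  lK := h.lK.comp hf
  lG := h.lG.comp hf
  lane := h.lane.comp ((hf.comp PT.fst).pair PT.snd)
  st := h.st.comp ((hf.comp PT.fst).pair PT.snd)
  sd := h.sd.comp ((hf.comp PT.fst).pair PT.snd)

section Edges

variable {q : α → Raw} {T T' : α → ℕ × ℕ × ℕ}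

lemma ptp_is3 {t a b : α → ℕ} (hT : PT T) (ht : PT t) (ha : PT a) (hb : PT b) :
    PTp (fun x => is3 (T x) (t x) (a x) (b x)) := by
  unfold is3
  exact (PTp.eq (PT.fst.comp hT) ht).and ((PTp.eq (PT.fst.comp (PT.snd.comp hT)) ha).and
    (PTp.eq (PT.snd.comp (PT.snd.comp hT)) hb))

lemma ptp_is3c (hT : PT T) (t a b : ℕ) : PTp (fun x => is3 (T x) t a b) :=
  ptp_is3 hT (PT.const t) (PT.const a) (PT.const b)

lemma ptp_ES (hT : PT T) (hT' : PT T') : PTp (fun x => ES (T x) (T' x)) := by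
  have k : ∀ t t', PTp (fun x => is3 (T x) t 0 0 ∧ is3 (T' x) t' 0 0) := fun t t' =>
    (ptp_is3c hT t 0 0).and (ptp_is3c hT' t' 0 0)
  unfold ES
  exact (k _ _).or ((k _ _).or ((k _ _).or ((k _ _).or ((k _ _).or ((k _ _).or ((k _ _).or
    ((k _ _).or ((k _ _).or ((k _ _).or ((k _ _).or ((k _ _).or (k _ _))))))))))))

lemma ptp_EC (hq : PTraw q) (hT : PT T) (hT' : PT T') : PTp (fun x => EC (q x) (T x) (T' x)) := by
  have k : ∀ t t' a', PTp (fun x => is3 (T x) t 0 0 ∧ is3 (T' x) t' a' 0) := fun t t' a' =>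
    (ptp_is3c hT t 0 0).and (ptp_is3c hT' t' a' 0)
  have k2 : ∀ {a : α → ℕ} (t t' a' : ℕ), PT a →
      PTp (fun x => is3 (T x) t (a x) 0 ∧ is3 (T' x) t' a' 0) := fun t t' a' ha =>
    (ptp_is3 hT (PT.const t) ha (PT.const 0)).and (ptp_is3c hT' t' a' 0)
  unfold EC
  exact (k _ _ _).or ((k2 _ _ _ hq.Len).or ((k _ _ _).or ((k _ _ _).or ((k2 _ _ _ hq.Len).or
    ((k2 _ _ _ hq.Len).or ((k2 _ _ _ (hq.ka.sub (PT.const 1))).or
    ((k2 _ _ _ (hq.la.sub (PT.const 1))).or ((k2 _ _ _ (hq.lJ.sub (PT.const 1))).or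
    (k2 _ _ _ (hq.lG.sub (PT.const 1)))))))))))

lemma ptp_rinn (hq : PTraw q) {i : α → ℕ} (hi : PT i) : PTp (fun x => rinn (q x) (i x)) := by
  unfold rinn
  exact PTp.lt hq.sg (hi.mod hq.P)

lemma ptp_EL (hq : PTraw q) (hT : PT T) (hT' : PT T') : PTp (fun x => EL (q x) (T x) (T' x)) := by
  have ha : PT (fun x => (T x).2.1) := PT.fst.comp (PT.snd.comp hT)
  have ha1 : PT (fun x => (T x).2.1 + 1) := PT.succ.comp ha
  unfold EL
  refine PTp.exBool (fun l => PTp.exBool (fun s => PTp.exBool (fun s' => ?_)))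
  unfold ELs
  exact ((ptp_is3 hT (PT.const _) ha (PT.const 0)).and
    (ptp_is3 hT' (PT.const _) ha1 (PT.const 0))).and ((PTp.lt ha hq.Len).and
    (((PTp.const _).or (ptp_rinn hq ha)).and (((PTp.const _).or (ptp_rinn hq ha1)).and
      ((ptp_rinn hq ha).not.or ((ptp_rinn hq ha1).not.or (PTp.const _))))))

lemma ptp_EM (hq : PTraw q) (hT : PT T) (hT' : PT T') : PTp (fun x => EM (q x) (T x) (T' x)) := by
  have ht : PT (fun x => (T x).1) := PT.fst.comp hT
  have ha : PT (fun x => (T x).2.1) := PT.fst.comp (PT.snd.comp hT)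
  have hb : PT (fun x => (T x).2.2) := PT.snd.comp (PT.snd.comp hT)
  have ha1 : PT (fun x => (T x).2.1 + 1) := PT.succ.comp ha
  have k : ∀ {len : α → ℕ} (t : ℕ), PT len → PTp (fun x => EM1 t (len x) (T x) (T' x)) := by
    intro len t hl
    unfold EM1
    exact ((ptp_is3 hT (PT.const _) ha (PT.const 0)).and
      (ptp_is3 hT' (PT.const _) ha1 (PT.const 0))).and
        ((PTp.le (PT.const 1) ha).and (PTp.lt ha1 hl))
  unfold EM
  exact (k _ hq.ka).or ((k _ hq.la).or ((k _ hq.lJ).or ((k _ hq.lG).or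
    (((ptp_is3 hT' ht ha1 hb).and ((PTp.le (PT.const 21) ht).and (PTp.lt ht (PT.const 25)))).and
      ((PTp.lt hb hq.M).and ((PTp.le (PT.const 1) ha).and (PTp.lt ha1 hq.lK)))))))

lemma ptp_EK (hq : PTraw q) (hT : PT T) (hT' : PT T') : PTp (fun x => EK (q x) (T x) (T' x)) := by
  have hb : PT (fun x => (T x).2.2) := PT.snd.comp (PT.snd.comp hT)
  have hb' : PT (fun x => (T' x).2.2) := PT.snd.comp (PT.snd.comp hT')
  have hTp : PT (fun y : α × ℕ => T y.1) := hT.comp PT.fst
  have hTp' : PT (fun y : α × ℕ => T' y.1) := hT'.comp PT.fst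
  have hbp : PT (fun y : α × ℕ => (T y.1).2.2) := hb.comp PT.fst
  have hbp' : PT (fun y : α × ℕ => (T' y.1).2.2) := hb'.comp PT.fst
  have hr : PT (fun y : α × ℕ => y.2) := PT.snd
  have hqp : PTraw (fun y : α × ℕ => q y.1) := hq.comp PT.fst
  have htl : ∀ {b : α × ℕ → ℕ}, PT b → PT (fun y : α × ℕ =>
      tln ((q y.1).lane (b y) y.2) ((q y.1).sd (b y) y.2)) := fun hb =>
    pt_tln (hq.lane.comp (PT.fst.pair (hb.pair hr))) (hq.sd.comp (PT.fst.pair (hb.pair hr)))
  have hai : ∀ {b : α × ℕ → ℕ}, PT b → PT (fun y : α × ℕ => rai (q y.1) (b y) y.2) := by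
    intro b hb
    unfold rai
    exact ((((hq.st.comp (PT.fst.pair (hb.pair hr))).mul hqp.P).add hqp.sg).add (PT.const 1)).add
      ((PT.const 2).mul hb)
  unfold EK
  refine ((ptp_is3 hT (PT.const _) hq.Len (PT.const 0)).and ((ptp_is3 hT' (PT.const _)
    (PT.const _) hb').and (PTp.lt hb' hq.M))).or (PTp.or ?_ (PTp.or ?_ ?_))
  · refine PTp.bex (P := fun x r => is3 (T x) (tln ((q x).lane (T' x).2.2 r)
      ((q x).sd (T' x).2.2 r)) (rai (q x) (T' x).2.2 r + 1) 0 ∧
        (is3 (T' x) (21 + (r + 1)) 1 (T' x).2.2 ∧ (T' x).2.2 < (q x).M)) (PT.const 3) ?_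
    exact (ptp_is3 hTp (htl hbp') ((hai hbp').add (PT.const 1)) (PT.const 0)).and
      ((ptp_is3 hTp' ((PT.const 21).add (hr.add (PT.const 1))) (PT.const 1) hbp').and
        (PTp.lt hbp' hqp.M))
  · refine PTp.bex (P := fun x r => is3 (T' x) (tln ((q x).lane (T x).2.2 r)
      ((q x).sd (T x).2.2 r)) (rai (q x) (T x).2.2 r) 0 ∧
        (is3 (T x) (21 + r) ((q x).lK - 1) (T x).2.2 ∧ (T x).2.2 < (q x).M)) (PT.const 3) ?_
    exact (ptp_is3 hTp' (htl hbp) (hai hbp) (PT.const 0)).and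
      ((ptp_is3 hTp ((PT.const 21).add hr) (hqp.lK.sub (PT.const 1)) hbp).and
        (PTp.lt hbp hqp.M))
  · exact (ptp_is3c hT' _ _ _).and ((ptp_is3 hT (PT.const _) (hq.lK.sub (PT.const 1)) hb).and
      (PTp.lt hb hq.M))

lemma ptp_ET (hq : PTraw q) (hT : PT T) (hT' : PT T') : PTp (fun x => ET (q x) (T x) (T' x)) := by
  unfold ET
  exact (ptp_ES hT hT').or ((ptp_EC hq hT hT').or ((ptp_EL hq hT hT').or ((ptp_EM hq hT hT').or
    (ptp_EK hq hT hT'))))

lemma pt_dig (hq : PTraw q) {u : α → ℕ} (hu : PT u) : PT (fun x => dig (q x) (u x)) := by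
  have hB : PT (fun x => rB (q x)) := by
    unfold rB
    exact hq.lG.add (PT.const 1)
  have h25 : PT (fun x => u x / 25) := hu.div (PT.const 25)
  unfold dig
  exact (hu.mod (PT.const 25)).pair ((h25.mod hB).pair (h25.div hB))

lemma pt_rNN (hq : PTraw q) : PT (fun x => rNN (q x)) := by
  unfold rNN rB
  exact (PT.const 25).mul ((hq.lG.add (PT.const 1)).mul (hq.M.add (PT.const 1)))

lemma ptp_adjN (hq : PTraw q) {u v : α → ℕ} (hu : PT u) (hv : PT v) :
    PTp (fun x => adjN (q x) (u x) (v x)) := by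
  unfold adjN
  exact (ptp_ET hq (pt_dig hq hu) (pt_dig hq hv)).or (ptp_ET hq (pt_dig hq hv) (pt_dig hq hu))

end Edges

/-! ### The reduction -/

open Classical in
/-- Adjacency bit of the reduction graph. -/
noncomputable def redBit (x : ℕ × List (ℕ × ℕ × ℕ)) (u v : ℕ) : Bool :=
  decide (adjN (rawOf x.1 x.2) u v)

/-- A row of the adjacency matrix of the reduction graph. -/
noncomputable def redRow (x : ℕ × List (ℕ × ℕ × ℕ)) (u : ℕ) : List Bool :=
  (List.range (rNN (rawOf x.1 x.2))).map (redBit x u)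

/-- The reduction as a function on encoded instances. -/
noncomputable def redFun (x : ℕ × List (ℕ × ℕ × ℕ)) : ℕ × List (List Bool) :=
  (rNN (rawOf x.1 x.2), (List.range (rNN (rawOf x.1 x.2))).map (redRow x))

lemma pt_redBit : PT (fun p : ((ℕ × List (ℕ × ℕ × ℕ)) × ℕ) × ℕ => redBit p.1.1 p.1.2 p.2) := by
  classical
  have g1 : PT (fun p : ((ℕ × List (ℕ × ℕ × ℕ)) × ℕ) × ℕ => p.1.1) := PT.fst.comp PT.fst
  have g2 : PT (fun p : ((ℕ × List (ℕ × ℕ × ℕ)) × ℕ) × ℕ => p.1.2) := PT.snd.comp PT.fst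
  have g3 : PT (fun p : ((ℕ × List (ℕ × ℕ × ℕ)) × ℕ) × ℕ => p.2) := PT.snd
  exact PTp.toPT (ptp_adjN (ptraw_rawOf (PT.fst.comp g1) (PT.snd.comp g1)) g2 g3)

lemma pt_redRow : PT (fun p : (ℕ × List (ℕ × ℕ × ℕ)) × ℕ => redRow p.1 p.2) :=
  PT.mapRange (n := fun p : (ℕ × List (ℕ × ℕ × ℕ)) × ℕ => rNN (rawOf p.1.1 p.1.2))
    (f := fun p v => redBit p.1 p.2 v)
    (pt_rNN (ptraw_rawOf (PT.fst.comp PT.fst) (PT.snd.comp PT.fst))) pt_redBit

/-- **The reduction is computable in polynomial time.** -/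
theorem pt_redFun : PT redFun := by
  have h := pt_rNN (ptraw_rawOf (PT.fst (α := ℕ) (β := List (ℕ × ℕ × ℕ))) PT.snd)
  exact h.pair (PT.mapRange h pt_redRow)

open Pool.Agent.H40.CR (adjMatrix ofFn_eq_range_map) in
lemma redFun_spec {n : ℕ} {L : List (ℕ × ℕ × ℕ)} (h : Wf n L) :
    redFun (n, L) = (rNN (praw (mkPar n L h)), adjMatrix (redG (mkPar n L h))) := by
  classical
  have h1 : ∀ u : Fin (rNN (praw (mkPar n L h))),
      (List.ofFn fun v : Fin (rNN (praw (mkPar n L h))) =>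
        decide ((redG (mkPar n L h)).Adj u v)) = redRow (n, L) u := by
    intro u
    unfold redRow
    rw [← praw_mkPar h, ← ofFn_eq_range_map]
    congr 1
  have h2 : (List.range (rNN (praw (mkPar n L h)))).map (redRow (n, L)) =
      adjMatrix (redG (mkPar n L h)) := by
    rw [← ofFn_eq_range_map]
    exact congrArg List.ofFn (funext fun u => (h1 u).symm)
  have h3 : redFun (n, L) = (rNN (praw (mkPar n L h)),
      (List.range (rNN (praw (mkPar n L h)))).map (redRow (n, L))) := by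
    unfold redFun
    rw [praw_mkPar]
  rw [h3, h2]

lemma natTree_same : natTree = Pool.Agent.H40.CR.natTree := by
  funext n
  induction n with
  | zero => rfl
  | succ n ih => rw [natTree, Pool.Agent.H40.CR.natTree, ih]

lemma listTree_same : listTree = Pool.Agent.H40.CR.listTree := by
  funext l
  induction l with
  | nil => rfl
  | cons a l ih => rw [listTree, Pool.Agent.H40.CR.listTree, ih]

lemma graphTree_same {n : ℕ} (G : SimpleGraph (Fin n)) :
    graphTree G = Pool.Agent.H40.CR.graphTree G := by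
  rw [graphTree, Pool.Agent.H40.CR.graphTree, natTree_same, listTree_same]

lemma formTree_eq (n : ℕ) (L : List (ℕ × ℕ × ℕ)) : formTree n L = enc (n, L) := by
  have h : enc (n, L) = Tr.node (enc n) (enc L) := rfl
  rw [h, ← Pool.Agent.H40.CR.listTree_map L, formTree, natTree_same, listTree_same,
    Pool.Agent.H40.CR.natTree_eq]
  congr 3
  funext C
  rw [Pool.Agent.H40.CR.natTree_eq, Pool.Agent.H40.CR.natTree_eq, Pool.Agent.H40.CR.natTree_eq]
  rfl

lemma sz_form {n : ℕ} {L : List (ℕ × ℕ × ℕ)} (h : Wf n L) :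
    sz (n, L) + 2 ≤ (n + L.length + 2) ^ 6 := by
  have h1 : ∀ l : List (ℕ × ℕ × ℕ), Wf n l → sz l ≤ (24 * n + 6) * l.length + 1 := by
    intro l
    induction l with
    | nil => intro _; simp [sz_nil]
    | cons C l ih =>
      intro hl
      rw [sz_cons, List.length_cons]
      have h2 := ih (fun C' hC' => hl C' (List.mem_cons_of_mem _ hC'))
      obtain ⟨h3, h4, h5⟩ := hl C List.mem_cons_self
      have h6 : sz C ≤ 24 * n + 5 := by
        rcases C with ⟨a, b, c⟩
        rw [sz_pair, sz_pair, sz_nat, sz_nat, sz_nat]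
        simp only at h3 h4 h5
        omega
      have : (24 * n + 6) * (l.length + 1) = (24 * n + 6) * l.length + (24 * n + 6) := by ring
      omega
  have h2 := h1 L h
  rw [sz_pair, sz_nat]
  set m := L.length
  have h3 : (n + m + 2) ^ 2 * 16 ≤ (n + m + 2) ^ 6 := by
    have : 2 ^ 4 ≤ (n + m + 2) ^ 4 := Nat.pow_le_pow_left (by omega) 4
    calc (n + m + 2) ^ 2 * 16 ≤ (n + m + 2) ^ 2 * (n + m + 2) ^ 4 := Nat.mul_le_mul_left _ this
      _ = (n + m + 2) ^ 6 := by ring
  nlinarith [Nat.zero_le (n * m), Nat.zero_le (n * n), Nat.zero_le (m * m)]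

/-! ### The game -/

/-- The positions won by the player to move, in terms of the adjacency relation. -/
lemma wins_iff {V : Type*} (G : SimpleGraph V) (U : Set (Sym2 V)) (a b : V) :
    Wins G U a b ↔ MW G.Adj U a b := by
  constructor
  · intro h
    induction h with
    | move a' h hu _ ih => exact MW.intro a' h hu ih
  · intro h
    induction h with
    | intro a' h hu _ ih => exact Wins.move a' h hu ih

lemma p1Wins_iff {V : Type*} (G : SimpleGraph V) : P1Wins G ↔ Win1 G.Adj := by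
  unfold P1Wins Win1
  simp only [wins_iff]

/-- **The reduction**, given the analysis of the game. -/
theorem reduction (hT : ∀ p : Par, p.Typed → p.truth → p.WinsT)
    (hF : ∀ p : Par, p.Typed → ¬ p.truth → p.WinsF) :
    ∃ (r : Prog) (c : ℕ), ∀ (n : ℕ) (L : List (ℕ × ℕ × ℕ)), Wf n L →
      ∃ (N t : ℕ) (H : SimpleGraph (Fin N)),
        Run r (formTree n L) (graphTree H) t ∧
        t ≤ (n + L.length + 2) ^ c ∧
        (QBF n L ↔ P1Wins H) := by
  obtain ⟨r, T, ⟨c, hc⟩, _, hr⟩ := pt_redFun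
  refine ⟨r, 6 * c, fun n L h => ?_⟩
  obtain ⟨t, ht, hrun⟩ := hr (n, L)
  rw [redFun_spec h] at hrun
  refine ⟨rNN (praw (mkPar n L h)), t, redG (mkPar n L h), ?_, ?_, ?_⟩
  · rw [graphTree_same, Pool.Agent.H40.CR.graphTree_eq, formTree_eq]
    exact hrun
  · refine (ht.trans (hc _)).trans ?_
    calc (sz (n, L) + 2) ^ c ≤ ((n + L.length + 2) ^ 6) ^ c := Nat.pow_le_pow_left (sz_form h) c
      _ = (n + L.length + 2) ^ (6 * c) := by rw [pow_mul]
  · rw [p1Wins_iff, win1_redG, win1_iff _ (hT _ mkPar_typed) (hF _ mkPar_typed), mkPar_truth]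

end Pool.Agent.H20.TT
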