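import Mathlib
import Pool.Agent.H20.TT.PTime

/-!
# Draft of the final theorem (TRAIL TRAP is PSPACE-hard)

The hand-in file will be `Pool/Agent/Results/MP_1550cc_lc/PSPACEHard.lean` with the same statement
and proof `reduction winsT winsF`.
-/

namespace Pool.Agent.H20.TT

open Pool.Agent.H7.Comp Pool.Agent.H33.TT

/-- **TRAIL TRAP is PSPACE-hard.** There is a program `r` which, given a quantified Boolean formula
`∃ v₀ ∀ v₁ ∃ v₂ … ∀ v₂ₙ₋₁ ⋀ L` (`L` a list of clauses with three literals each), computes in time
polynomial in `n + L.length` a graph `H` such that the formula is true if and only if P1 has a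
winning strategy in Trail Trap on `H`. -/
theorem draft (hT : ∀ p : Par, p.Typed → p.truth → p.WinsT)
    (hF : ∀ p : Par, p.Typed → ¬ p.truth → p.WinsF) :
    ∃ (r : Prog) (c : ℕ), ∀ (n : ℕ) (L : List (ℕ × ℕ × ℕ)), Wf n L →
      ∃ (N t : ℕ) (H : SimpleGraph (Fin N)),
        Run r (formTree n L) (graphTree H) t ∧
        t ≤ (n + L.length + 2) ^ c ∧
        (QBF n L ↔ P1Wins H) :=
  reduction hT hF

end Pool.Agent.H20.TT
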